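import Pool.Agent.H.MP_1ce9e9_gt.A

set_option autoImplicit false

/-! Sweeping a family of forward oriented segments: cuts, fluxes and the area bound. -/

namespace Pool.Agent.H.MP_b48dd4_gt

open Finset Pool.Agent.H.MP_1ce9e9_gt Classical

/-- direction of an edge -/
noncomputable def uu (e : ℂ × ℂ) : ℂ := un (e.2 - e.1)

noncomputable def inn (E : Finset (ℂ × ℂ)) (v : ℂ) : Finset (ℂ × ℂ) := E.filter fun e => e.2 = v

noncomputable def out (E : Finset (ℂ × ℂ)) (v : ℂ) : Finset (ℂ × ℂ) := E.filter fun e => e.1 = v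

noncomputable def cut (E : Finset (ℂ × ℂ)) (A : Finset ℂ) (t : ℝ) : Finset (ℂ × ℂ) :=
  E.filter fun e => (e.1 ∈ A ∨ e.2 ∈ A) ∧ (e.1 ∈ A → e.1.re ≤ t) ∧ (e.2 ∈ A → t < e.2.re)

noncomputable def back (E : Finset (ℂ × ℂ)) (A : Finset ℂ) : Finset (ℂ × ℂ) :=
  E.filter fun e => e.2 ∈ A ∧ e.1 ∉ A

noncomputable def fwd (E : Finset (ℂ × ℂ)) (A : Finset ℂ) : Finset (ℂ × ℂ) :=
  E.filter fun e => e.1 ∈ A ∧ e.2 ∉ A

/-- cross product -/
def cr (z w : ℂ) : ℝ := z.im * w.re - z.re * w.im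

/-- spread of a vertex -/
noncomputable def sp (E : Finset (ℂ × ℂ)) (v : ℂ) : ℝ :=
  ∑ e ∈ inn E v, ∑ f ∈ inn E v, |cr (uu e) (uu f)| + ∑ e ∈ out E v, ∑ f ∈ out E v, |cr (uu e) (uu f)|

structure Good (E : Finset (ℂ × ℂ)) (A : Finset ℂ) (D : ℕ) : Prop where
  fw : ∀ e ∈ E, e.1.re < e.2.re
  inj : ∀ v ∈ A, ∀ w ∈ A, v.re = w.re → v = w
  bal : ∀ v ∈ A, ∑ e ∈ out E v, uu e = ∑ e ∈ inn E v, uu e
  pos : ∀ v ∈ A, 0 < sp E v
  d1 : ∀ v ∈ A, (inn E v).card ≤ D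
  d2 : ∀ v ∈ A, (out E v).card ≤ D

lemma Good.sub {E : Finset (ℂ × ℂ)} {A B : Finset ℂ} {D : ℕ} (h : Good E A D) (hB : B ⊆ A) :
    Good E B D :=
  ⟨h.fw, fun v hv w hw => h.inj v (hB hv) w (hB hw), fun v hv => h.bal v (hB hv),
    fun v hv => h.pos v (hB hv), fun v hv => h.d1 v (hB hv), fun v hv => h.d2 v (hB hv)⟩

lemma sum_out (E : Finset (ℂ × ℂ)) (B : Finset ℂ) (g : ℂ → ℂ × ℂ → ℝ) :
    ∑ v ∈ B, ∑ e ∈ out E v, g v e = ∑ e ∈ E, if e.1 ∈ B then g e.1 e else 0 := by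
  unfold out
  simp only [sum_filter]
  rw [sum_comm]
  exact sum_congr rfl fun e _ => sum_ite_eq B e.1 fun v => g v e

lemma sum_inn (E : Finset (ℂ × ℂ)) (B : Finset ℂ) (g : ℂ → ℂ × ℂ → ℝ) :
    ∑ v ∈ B, ∑ e ∈ inn E v, g v e = ∑ e ∈ E, if e.2 ∈ B then g e.2 e else 0 := by
  unfold inn
  simp only [sum_filter]
  rw [sum_comm]
  exact sum_congr rfl fun e _ => sum_ite_eq B e.2 fun v => g v e

lemma flux {E : Finset (ℂ × ℂ)} (hE : ∀ e ∈ E, e.1.re < e.2.re) (A : Finset ℂ) (g : ℂ × ℂ → ℝ)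
    {s t : ℝ} (hst : s ≤ t) : ∑ e ∈ cut E A t, g e = ∑ e ∈ cut E A s, g e +
      ∑ v ∈ A.filter (fun v => s < v.re ∧ v.re ≤ t), (∑ e ∈ out E v, g e - ∑ e ∈ inn E v, g e) := by
  rw [sum_sub_distrib, sum_out E _ fun _ e => g e, sum_inn E _ fun _ e => g e]
  unfold cut
  rw [sum_filter, sum_filter, ← sum_sub_distrib, ← sum_add_distrib]
  refine sum_congr rfl fun e he => ?_
  have := hE e he
  simp only [mem_filter]
  by_cases h1 : e.1 ∈ A <;> by_cases h2 : e.2 ∈ A <;> simp only [h1, h2] <;> grind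

lemma ex_T (A : Finset ℂ) : ∃ T : ℝ, 0 < T ∧ ∀ v ∈ A, -T < v.re ∧ v.re < T := by
  refine ⟨∑ v ∈ A, |v.re| + 1, by positivity, fun v hv => ?_⟩
  have := single_le_sum (f := fun v : ℂ => |v.re|) (fun _ _ => abs_nonneg _) hv
  have := le_abs_self v.re
  have := neg_abs_le v.re
  constructor <;> linarith

lemma cut_lo (E : Finset (ℂ × ℂ)) {A : Finset ℂ} {t : ℝ} (h : ∀ v ∈ A, t < v.re) :
    cut E A t = back E A := by
  unfold cut back
  refine filter_congr fun e _ => ?_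
  have := h e.1
  have := h e.2
  grind

lemma cut_hi (E : Finset (ℂ × ℂ)) {A : Finset ℂ} {t : ℝ} (h : ∀ v ∈ A, v.re < t) :
    cut E A t = fwd E A := by
  unfold cut fwd
  refine filter_congr fun e _ => ?_
  have := h e.1
  have := h e.2
  grind

lemma cons {E : Finset (ℂ × ℂ)} (hE : ∀ e ∈ E, e.1.re < e.2.re) {A : Finset ℂ} (g : ℂ × ℂ → ℝ)
    (hg : ∀ v ∈ A, ∑ e ∈ out E v, g e = ∑ e ∈ inn E v, g e) (t : ℝ) :
    ∑ e ∈ cut E A t, g e = ∑ e ∈ back E A, g e := by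
  obtain ⟨T, -, hT⟩ := ex_T A
  rw [flux hE A g (min_le_left t (-T)), cut_lo E fun v hv => (min_le_right _ _).trans_lt (hT v hv).1,
    sum_eq_zero (s := A.filter _) fun v hv => sub_eq_zero.2 (hg v (mem_filter.1 hv).1), add_zero]

noncomputable def sgn (x : ℝ) : ℝ := if 0 < x then 1 else if x < 0 then -1 else 0

lemma sgn_mono {x y : ℝ} (h : x ≤ y) : sgn x ≤ sgn y := by
  unfold sgn; split_ifs <;> linarith

lemma sgn_neg (x : ℝ) : sgn (-x) = -sgn x := by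
  unfold sgn; split_ifs <;> linarith

lemma sgn_abs (x : ℝ) : |sgn x| ≤ 1 := by
  unfold sgn; split_ifs <;> simp

lemma sgn_mul {c k d : ℝ} (hc : 0 < c) (hd : 0 < d) : sgn (k * d) * (c * k) = |c * k| := by
  unfold sgn
  rcases lt_trichotomy k 0 with h | h | h
  · rw [if_neg (by nlinarith), if_pos (by nlinarith), abs_of_neg (by nlinarith)]; ring
  · simp [h]
  · rw [if_pos (by positivity), abs_of_pos (by positivity)]; ring

/-- the supporting line of an edge -/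
noncomputable def ln (e : ℂ × ℂ) (t : ℝ) : ℝ :=
  e.1.im + (e.2.im - e.1.im) / (e.2.re - e.1.re) * (t - e.1.re)

lemma ln1 (e : ℂ × ℂ) : ln e e.1.re = e.1.im := by simp [ln]

lemma ln2 {e : ℂ × ℂ} (h : e.1.re < e.2.re) : ln e e.2.re = e.2.im := by
  unfold ln
  rw [div_mul_cancel₀ _ (sub_pos.2 h).ne']; ring

lemma uu_re (e : ℂ × ℂ) : (uu e).re = (e.2.re - e.1.re) / ‖e.2 - e.1‖ := by
  unfold uu un; rw [Complex.div_ofReal_re, Complex.sub_re]

lemma uu_im (e : ℂ × ℂ) : (uu e).im = (e.2.im - e.1.im) / ‖e.2 - e.1‖ := by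
  unfold uu un; rw [Complex.div_ofReal_im, Complex.sub_im]

lemma nrm_pos {e : ℂ × ℂ} (h : e.1.re < e.2.re) : 0 < ‖e.2 - e.1‖ :=
  norm_pos_iff.2 fun hh => by rw [sub_eq_zero.1 hh] at h; exact lt_irrefl _ h

lemma uu_pos {e : ℂ × ℂ} (h : e.1.re < e.2.re) : 0 < (uu e).re := by
  rw [uu_re]; exact div_pos (sub_pos.2 h) (nrm_pos h)

lemma uu_norm {e : ℂ × ℂ} (h : e.1.re < e.2.re) : ‖uu e‖ = 1 := by
  unfold uu un
  rw [norm_div, Complex.norm_real, Real.norm_of_nonneg (norm_nonneg _), div_self (nrm_pos h).ne']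

lemma uu_sq {e : ℂ × ℂ} (h : e.1.re < e.2.re) : (uu e).re ^ 2 + (uu e).im ^ 2 = 1 := by
  have := Complex.sq_norm (uu e)
  rw [uu_norm h, Complex.normSq_apply] at this
  linarith

/-- the signed contribution of a pair of edges at time `t` -/
noncomputable def HH (e f : ℂ × ℂ) (t : ℝ) : ℝ := sgn (ln e t - ln f t) * cr (uu e) (uu f)

lemma HH_symm (e f : ℂ × ℂ) (t : ℝ) : HH f e t = HH e f t := by
  unfold HH cr
  rw [← neg_sub (ln e t), sgn_neg]; ring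

lemma HH_prop {e f : ℂ × ℂ} (he : e.1.re < e.2.re) (hf : f.1.re < f.2.re) :
    Monotone (HH e f) ∧ (∀ t, |HH e f t| ≤ |cr (uu e) (uu f)|) ∧
    ∀ s, ln e s = ln f s → HH e f s = 0 ∧ (∀ t, s < t → HH e f t = |cr (uu e) (uu f)|) ∧
      ∀ t, t < s → HH e f t = -|cr (uu e) (uu f)| := by
  obtain ⟨k, hk⟩ : ∃ k, k = (e.2.im - e.1.im) / (e.2.re - e.1.re) -
    (f.2.im - f.1.im) / (f.2.re - f.1.re) := ⟨_, rfl⟩
  have h1 : ∀ s t, ln e t - ln f t = ln e s - ln f s + k * (t - s) := by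
    intro s t; unfold ln; rw [hk]; ring
  have hc : 0 < (uu e).re * (uu f).re := mul_pos (uu_pos he) (uu_pos hf)
  have h2 : cr (uu e) (uu f) = (uu e).re * (uu f).re * k := by
    have := (sub_pos.2 he).ne'
    have := (sub_pos.2 hf).ne'
    unfold cr
    rw [hk, uu_re, uu_re, uu_im, uu_im]
    field_simp
  unfold HH
  rw [h2]
  generalize (uu e).re * (uu f).re = c at *
  refine ⟨fun s t hst => ?_, fun t => ?_, fun s hs => ⟨?_, fun t ht => ?_, fun t ht => ?_⟩⟩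
  · beta_reduce
    rw [h1 s t]
    rcases le_total 0 k with h | h
    · exact mul_le_mul_of_nonneg_right (sgn_mono (by nlinarith)) (by positivity)
    · exact mul_le_mul_of_nonpos_right (sgn_mono (by nlinarith)) (by nlinarith)
  · rw [abs_mul]
    exact mul_le_of_le_one_left (abs_nonneg _) (sgn_abs _)
  · rw [hs, sub_self]; simp [sgn]
  · rw [h1 s t, hs, sub_self, zero_add, sgn_mul hc (sub_pos.2 ht)]
  · rw [h1 s t, hs, sub_self, zero_add, ← sgn_mul hc (sub_pos.2 ht), ← neg_mul, ← sgn_neg]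
    congr 2; ring

lemma pair_ineq (H : ℝ → ℝ) (x a b c d : ℝ) (P Q : Prop) (hm : Monotone H) (hb : ∀ t, |H t| ≤ x)
    (hab : a < b) (hcd : c < d)
    (hP : a = c → ¬ P → H a = 0 ∧ ∀ t, a < t → H t = x)
    (hQ : b = d → ¬ Q → H b = 0 ∧ ∀ t, t < b → H t = -x) :
    ((if c < a ∧ a < d then H a else 0) - (if c < b ∧ b < d then H b else 0)) +
      ((if a < c ∧ c < b then H c else 0) - (if a < d ∧ d < b then H d else 0)) +
      ((if a = c ∧ ¬ P then x else 0) + (if b = d ∧ ¬ Q then x else 0)) ≤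
      (if a = c ∧ P then x else 0) + (if b = d ∧ Q then x else 0) := by
  have h1 := abs_le.1 (hb a)
  have h2 := abs_le.1 (hb b)
  have h3 := abs_le.1 (hb c)
  have h4 := abs_le.1 (hb d)
  have m1 := hm hab.le
  have m2 := hm hcd.le
  have m3 : a ≤ d → H a ≤ H d := fun h => hm h
  have m4 : c ≤ b → H c ≤ H b := fun h => hm h
  have p1 : a = c → ¬ P → H a = 0 ∧ H b = x ∧ H d = x := fun e n =>
    ⟨(hP e n).1, (hP e n).2 b hab, (hP e n).2 d (e ▸ hcd)⟩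
  have p2 : b = d → ¬ Q → H b = 0 ∧ H a = -x ∧ H c = -x := fun e n =>
    ⟨(hQ e n).1, (hQ e n).2 a hab, (hQ e n).2 c (e ▸ hcd)⟩
  clear hm hb hP hQ
  rcases lt_trichotomy a c with h | h | h <;> rcases lt_trichotomy b d with h' | h' | h' <;>
    by_cases q1 : P <;> by_cases q2 : Q <;> grind

theorem area {E : Finset (ℂ × ℂ)} {A : Finset ℂ} {D : ℕ} (h : Good E A D) :
    ∑ v ∈ A, sp E v ≤ ∑ e ∈ back E A, ∑ f ∈ back E A, |cr (uu e) (uu f)| +
      ∑ e ∈ fwd E A, ∑ f ∈ fwd E A, |cr (uu e) (uu f)| := by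
  obtain ⟨T, T0, hT⟩ := ex_T A
  obtain ⟨σ, s1, s2⟩ : ∃ σ : ℂ × ℂ → ℝ, (∀ e, e.1 ∈ A → σ e = e.1.re) ∧ ∀ e, e.1 ∉ A → σ e = -T :=
    ⟨fun e => if e.1 ∈ A then e.1.re else -T, fun e h => if_pos h, fun e h => if_neg h⟩
  obtain ⟨τ, t1, t2⟩ : ∃ τ : ℂ × ℂ → ℝ, (∀ e, e.2 ∈ A → τ e = e.2.re) ∧ ∀ e, e.2 ∉ A → τ e = T :=
    ⟨fun e => if e.2 ∈ A then e.2.re else T, fun e h => if_pos h, fun e h => if_neg h⟩
  obtain ⟨c, hc⟩ : ∃ c : ℂ × ℂ → ℝ, ∀ e, c e = if e.1 ∈ A ∨ e.2 ∈ A then 1 else 0 := ⟨_, fun _ => rfl⟩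
  have sb : ∀ e, -T ≤ σ e ∧ σ e < T := fun e => by
    by_cases q : e.1 ∈ A
    · rw [s1 e q]; exact ⟨(hT _ q).1.le, (hT _ q).2⟩
    · rw [s2 e q]; exact ⟨le_rfl, by linarith⟩
  have tb : ∀ e, -T < τ e ∧ τ e ≤ T := fun e => by
    by_cases q : e.2 ∈ A
    · rw [t1 e q]; exact ⟨(hT _ q).1, (hT _ q).2.le⟩
    · rw [t2 e q]; exact ⟨by linarith, le_rfl⟩
  have st : ∀ e ∈ E, σ e < τ e := fun e he => by
    by_cases q : e.1 ∈ A <;> by_cases q' : e.2 ∈ A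
    · rw [s1 e q, t1 e q']; exact h.fw e he
    · rw [t2 e q']; exact (sb e).2
    · rw [s2 e q]; exact (tb e).1
    · rw [t2 e q']; exact (sb e).2
  obtain ⟨tm, htm⟩ : ∃ tm : ℂ × ℂ → ℂ × ℂ → ℝ, ∀ e f, tm e f =
    (if σ f < σ e ∧ σ e < τ f then HH e f (σ e) else 0) -
      (if σ f < τ e ∧ τ e < τ f then HH e f (τ e) else 0) := ⟨_, fun _ _ => rfl⟩
  have z1 : ∀ f, ∑ e ∈ E, tm e f = 0 := by
    intro f
    have : ∑ v ∈ A, (∑ e ∈ out E v, (if σ f < v.re ∧ v.re < τ f then sgn (v.im - ln f v.re) else 0) *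
        cr (uu e) (uu f) - ∑ e ∈ inn E v, (if σ f < v.re ∧ v.re < τ f then sgn (v.im - ln f v.re)
        else 0) * cr (uu e) (uu f)) = 0 := by
      refine sum_eq_zero fun v hv => ?_
      have b1 := congrArg Complex.re (h.bal v hv)
      have b2 := congrArg Complex.im (h.bal v hv)
      rw [Complex.re_sum, Complex.re_sum] at b1
      rw [Complex.im_sum, Complex.im_sum] at b2
      simp only [cr, ← mul_sum, sum_sub_distrib, ← sum_mul, b1, b2, sub_self]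
    rw [sum_sub_distrib, sum_out, sum_inn, ← sum_sub_distrib] at this
    rw [← this]
    refine sum_congr rfl fun e he => ?_
    rw [htm]
    congr 1
    · by_cases q : e.1 ∈ A
      · rw [if_pos q, s1 e q, HH, ln1, ite_mul, zero_mul]
      · rw [if_neg q, s2 e q, if_neg fun hh => absurd (sb f).1 (not_le.2 hh.1)]
    · by_cases q : e.2 ∈ A
      · rw [if_pos q, t1 e q, HH, ln2 (h.fw e he), ite_mul, zero_mul]
      · rw [if_neg q, t2 e q, if_neg fun hh => absurd (tb f).2 (not_le.2 hh.2)]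
  have z2 : ∑ e ∈ E, ∑ f ∈ E, c e * c f * tm e f = 0 := by
    rw [sum_comm]
    refine sum_eq_zero fun f _ => ?_
    rw [← mul_zero (c f), ← z1 f, mul_sum]
    refine sum_congr rfl fun e _ => ?_
    rw [hc e]
    split_ifs with q
    · ring
    · push Not at q
      rw [htm, s2 e q.1, t2 e q.2, if_neg fun hh => absurd (sb f).1 (not_le.2 hh.1),
        if_neg fun hh => absurd (tb f).2 (not_le.2 hh.2)]
      ring
  have z3 : ∑ e ∈ E, ∑ f ∈ E, c e * c f * tm f e = 0 := by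
    rw [sum_comm, ← z2]
    exact sum_congr rfl fun e _ => sum_congr rfl fun f _ => by ring
  unfold sp
  rw [sum_add_distrib, sum_out, sum_inn]
  have aux : ∀ X Y : ℝ, ∑ e ∈ E, ∑ f ∈ E, c e * c f * tm e f +
      ∑ e ∈ E, ∑ f ∈ E, c e * c f * tm f e + X ≤ Y → X ≤ Y := fun X Y hh => by
    rwa [z2, z3, add_zero, zero_add] at hh
  apply aux
  unfold back fwd inn out
  simp only [sum_filter]
  rw [← sum_add_distrib, ← sum_add_distrib, ← sum_add_distrib, ← sum_add_distrib]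
  refine sum_le_sum fun e he => ?_
  have iz : ∀ (P : Prop) [Decidable P] (g : ℂ × ℂ → ℝ), (if P then ∑ f ∈ E, g f else 0) =
      ∑ f ∈ E, if P then g f else 0 := fun P _ g => by split_ifs <;> simp
  simp only [iz]
  rw [← sum_add_distrib, ← sum_add_distrib, ← sum_add_distrib, ← sum_add_distrib]
  refine sum_le_sum fun f hf => ?_
  obtain ⟨q1, q2, q3⟩ := HH_prop (h.fw e he) (h.fw f hf)
  have a1 : σ e = σ f → e.1 ∈ A → f.1 = e.1 := fun e1 e2 => by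
    by_cases q : f.1 ∈ A
    · exact h.inj _ q _ e2 (by rw [← s1 e e2, ← s1 f q, e1])
    · rw [s1 e e2, s2 f q] at e1; exact absurd e1 (hT _ e2).1.ne'
  have a2 : τ e = τ f → e.2 ∈ A → f.2 = e.2 := fun e1 e2 => by
    by_cases q : f.2 ∈ A
    · exact h.inj _ q _ e2 (by rw [← t1 e e2, ← t1 f q, e1])
    · rw [t1 e e2, t2 f q] at e1; exact absurd e1 (hT _ e2).2.ne
  have a3 : σ e = σ f → e.1 ∉ A → f.1 ∉ A := fun e1 e2 q => by
    rw [s2 e e2, s1 f q] at e1; exact absurd e1 (hT _ q).1.ne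
  have a4 : τ e = τ f → e.2 ∉ A → f.2 ∉ A := fun e1 e2 q => by
    rw [t2 e e2, t1 f q] at e1; exact absurd e1 (hT _ q).2.ne'
  have a5 : e.1 ∈ A → f.1 = e.1 → σ e = σ f := fun e1 e2 => by rw [s1 e e1, s1 f (e2 ▸ e1), e2]
  have a6 : e.2 ∈ A → f.2 = e.2 → τ e = τ f := fun e1 e2 => by rw [t1 e e1, t1 f (e2 ▸ e1), e2]
  have key := pair_ineq (HH e f) |cr (uu e) (uu f)| (σ e) (τ e) (σ f) (τ f) (e.1 ∉ A) (e.2 ∉ A) q1 q2
    (st e he) (st f hf)
    (fun e1 e2 => by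
      have e3 := not_not.1 e2
      have := q3 (σ e) (by rw [s1 e e3, ln1, ← a1 e1 e3, ln1])
      exact ⟨this.1, this.2.1⟩)
    (fun e1 e2 => by
      have e3 := not_not.1 e2
      have := q3 (τ e) (by rw [t1 e e3, ln2 (h.fw e he), ← a2 e1 e3, ln2 (h.fw f hf)])
      exact ⟨this.1, this.2.2⟩)
  rw [← htm e f, ← HH_symm e f, ← HH_symm e f, ← htm f e] at key
  rw [hc, hc]
  have := abs_nonneg (cr (uu e) (uu f))
  generalize tm e f = y at *
  generalize tm f e = z at *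
  generalize |cr (uu e) (uu f)| = x at *
  generalize σ e = a at *
  generalize τ e = b at *
  generalize σ f = c at *
  generalize τ f = d at *
  clear * - key a1 a2 a3 a4 a5 a6 this
  simp only [ite_mul, one_mul, zero_mul]
  grind

end Pool.Agent.H.MP_b48dd4_gt
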