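import Pool.Agent.H.MP_b48dd4_gt.A

set_option autoImplicit false

/-! Thin vertices, a quadratic spline, persistence of gaps, and epochs. -/

namespace Pool.Agent.H.MP_b48dd4_gt

open Finset Pool.Agent.H.MP_1ce9e9_gt Classical

lemma near {u w : ℂ} {b : ℝ} (hu : u.re ^ 2 + u.im ^ 2 = 1) (hw : w.re ^ 2 + w.im ^ 2 = 1)
    (h1 : 0 < u.re) (h2 : 2 / 5 ≤ w.re) (h3 : |cr u w| ≤ b) (hb : b ≤ 1 / 10) :
    1 - b ^ 2 ≤ u.re * w.re + u.im * w.im ∧ u.re * w.re + u.im * w.im ≤ 1 ∧ |u.im - w.im| ≤ 2 * b := by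
  obtain ⟨α, hα⟩ : ∃ α, α = u.re * w.re + u.im * w.im := ⟨_, rfl⟩
  obtain ⟨β, hβ⟩ : ∃ β, β = cr u w := ⟨_, rfl⟩
  have e1 : α ^ 2 + β ^ 2 = 1 := by
    rw [hα, hβ, cr]; linear_combination (w.re ^ 2 + w.im ^ 2) * hu + hw
  have e2 : u.re = α * w.re - β * w.im := by rw [hα, hβ, cr]; linear_combination -u.re * hw
  have e3 : u.im = α * w.im + β * w.re := by rw [hα, hβ, cr]; linear_combination -u.im * hw
  rw [← hβ] at h3
  rw [← hα]
  have b0 := (abs_nonneg β).trans h3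
  obtain ⟨b1, b2⟩ := abs_le.1 h3
  have i1 : w.im ≤ 1 := by nlinarith
  have i2 : -1 ≤ w.im := by nlinarith
  have i3 : w.re ≤ 1 := by nlinarith
  have b3 : β ^ 2 ≤ b ^ 2 := by nlinarith
  have b4 : b ^ 2 ≤ 1 / 100 := by nlinarith
  have a0 : 0 < α := by
    by_contra hh
    have : α ≤ -9 / 10 := by nlinarith
    nlinarith
  have a1 : α ≤ 1 := by nlinarith
  have a2 : 1 - b ^ 2 ≤ α := by nlinarith
  refine ⟨a2, a1, ?_⟩
  rw [e3, abs_le]
  constructor <;> nlinarith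

lemma thin_core {ι : Type} (I J : Finset ι) (u : ι → ℂ) {D : ℕ} {η : ℝ} {i0 : ι}
    (hu : ∀ i, i ∈ I ∨ i ∈ J → (u i).re ^ 2 + (u i).im ^ 2 = 1 ∧ 0 < (u i).re)
    (hs : ∑ i ∈ I, u i = ∑ i ∈ J, u i) (cI : I.card ≤ D) (cJ : J.card ≤ D)
    (hI : ∀ i ∈ I, ∀ j ∈ I, |cr (u i) (u j)| ≤ η) (hJ : ∀ i ∈ J, ∀ j ∈ J, |cr (u i) (u j)| ≤ η)
    (h0 : i0 ∈ I) (h1 : 2 / 5 ≤ (u i0).re) (hη : 100 * (D : ℝ) ^ 2 * η ≤ 1) :
    I.card = J.card ∧ ∀ i, i ∈ I ∨ i ∈ J → |(u i).im - (u i0).im| ≤ 8 * D * η := by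
  have η0 : 0 ≤ η := (abs_nonneg _).trans (hI i0 h0 i0 h0)
  have c1 : (1 : ℝ) ≤ I.card := by exact_mod_cast card_pos.2 ⟨i0, h0⟩
  have c2 : (I.card : ℝ) ≤ D := by exact_mod_cast cI
  have c3 : (J.card : ℝ) ≤ D := by exact_mod_cast cJ
  have D1 : (1 : ℝ) ≤ D := c1.trans c2
  have η1 : D * η ≤ 1 / 100 := by nlinarith [mul_nonneg (by linarith : (0 : ℝ) ≤ D) η0]
  have η2 : η ≤ 1 / 100 := by nlinarith
  have hw := (hu i0 (Or.inl h0)).1
  have r1 := congrArg Complex.re hs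
  have r2 := congrArg Complex.im hs
  rw [Complex.re_sum, Complex.re_sum] at r1
  rw [Complex.im_sum, Complex.im_sum] at r2
  have nI := fun i hi => near (hu i (Or.inl hi)).1 hw (hu i (Or.inl hi)).2 h1 (hI i hi i0 h0)
    (by linarith)
  obtain ⟨x, hx⟩ : ∃ x, x = ∑ i ∈ I, (u i).re := ⟨_, rfl⟩
  obtain ⟨y, hy⟩ : ∃ y, y = ∑ i ∈ I, (u i).im := ⟨_, rfl⟩
  have dI : ∀ w : ℂ, ∑ i ∈ I, ((u i).re * w.re + (u i).im * w.im) = x * w.re + y * w.im := fun w => by
    rw [sum_add_distrib, ← sum_mul, ← sum_mul, hx, hy]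
  have dJ : ∀ w : ℂ, ∑ i ∈ J, ((u i).re * w.re + (u i).im * w.im) = x * w.re + y * w.im := fun w => by
    rw [sum_add_distrib, ← sum_mul, ← sum_mul, hx, hy, r1, r2]
  have xI : |y * (u i0).re - x * (u i0).im| ≤ D * η := by
    rw [hx, hy, sum_mul, sum_mul, ← sum_sub_distrib]
    refine (abs_sum_le_sum_abs _ _).trans ((sum_le_card_nsmul _ _ η fun i hi => hI i hi i0 h0).trans ?_)
    rw [nsmul_eq_mul]; exact mul_le_mul_of_nonneg_right c2 η0
  have xJ : ∀ j ∈ J, |y * (u j).re - x * (u j).im| ≤ D * η := fun j hj => by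
    rw [hx, hy, r1, r2, sum_mul, sum_mul, ← sum_sub_distrib]
    refine (abs_sum_le_sum_abs _ _).trans ((sum_le_card_nsmul _ _ η fun i hi => hJ i hi j hj).trans ?_)
    rw [nsmul_eq_mul]; exact mul_le_mul_of_nonneg_right c3 η0
  have a1 : I.card * (1 - η ^ 2) ≤ x * (u i0).re + y * (u i0).im := by
    rw [← dI, ← nsmul_eq_mul]; exact card_nsmul_le_sum _ _ _ fun i hi => (nI i hi).1
  have a2 : x * (u i0).re + y * (u i0).im ≤ I.card := by
    rw [← dI, ← mul_one (I.card : ℝ), ← nsmul_eq_mul]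
    exact sum_le_card_nsmul _ _ _ fun i hi => (nI i hi).2.1
  have a3 : 1 / 2 ≤ x * (u i0).re + y * (u i0).im := by nlinarith
  have bJ : ∀ j ∈ J, |cr (u j) (u i0)| ≤ 4 * D * η := by
    intro j hj
    have hj' := (hu j (Or.inr hj)).1
    have e : (x * (u i0).re + y * (u i0).im) * cr (u j) (u i0) =
        (y * (u i0).re - x * (u i0).im) * ((u j).re * (u i0).re + (u j).im * (u i0).im) -
          (y * (u j).re - x * (u j).im) := by
      rw [cr]; linear_combination -(y * (u j).re - x * (u j).im) * hw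
    have e2 : |(u j).re * (u i0).re + (u j).im * (u i0).im| ≤ 1 := by
      rw [abs_le]
      constructor <;> nlinarith [sq_nonneg ((u j).re + (u i0).re), sq_nonneg ((u j).im + (u i0).im),
        sq_nonneg ((u j).re - (u i0).re), sq_nonneg ((u j).im - (u i0).im)]
    have e3 := abs_sub ((y * (u i0).re - x * (u i0).im) *
      ((u j).re * (u i0).re + (u j).im * (u i0).im)) (y * (u j).re - x * (u j).im)
    rw [← e, abs_mul, abs_mul, abs_of_pos (by linarith : 0 < x * (u i0).re + y * (u i0).im)] at e3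
    have e4 := mul_le_of_le_one_right (abs_nonneg (y * (u i0).re - x * (u i0).im)) e2
    have := xJ j hj
    nlinarith [abs_nonneg (cr (u j) (u i0))]
  have nJ := fun j hj => near (hu j (Or.inr hj)).1 hw (hu j (Or.inr hj)).2 h1 (bJ j hj)
    (by linarith)
  have a4 : J.card * (1 - (4 * D * η) ^ 2) ≤ x * (u i0).re + y * (u i0).im := by
    rw [← dJ, ← nsmul_eq_mul]; exact card_nsmul_le_sum _ _ _ fun i hi => (nJ i hi).1
  have a5 : x * (u i0).re + y * (u i0).im ≤ J.card := by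
    rw [← dJ, ← mul_one (J.card : ℝ), ← nsmul_eq_mul]
    exact sum_le_card_nsmul _ _ _ fun i hi => (nJ i hi).2.1
  have a6 : D * (4 * D * η) ^ 2 < 1 := by nlinarith [mul_nonneg (by linarith : (0 : ℝ) ≤ D) η0]
  have a7 : D * η ^ 2 < 1 := by nlinarith
  refine ⟨le_antisymm (Nat.lt_succ_iff.1 ?_) (Nat.lt_succ_iff.1 ?_), ?_⟩
  · have : (I.card : ℝ) < J.card + 1 := by nlinarith [sq_nonneg η]
    exact_mod_cast this
  · have : (J.card : ℝ) < I.card + 1 := by nlinarith [sq_nonneg (4 * D * η)]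
    exact_mod_cast this
  · rintro i (hi | hi)
    · have := (nI i hi).2.2; nlinarith
    · have := (nJ i hi).2.2; linarith

/-- incidence -/
def At (E : Finset (ℂ × ℂ)) (v : ℂ) (e : ℂ × ℂ) : Prop := e ∈ inn E v ∨ e ∈ out E v

lemma At_iff {E : Finset (ℂ × ℂ)} {v : ℂ} {e : ℂ × ℂ} : At E v e ↔ e ∈ E ∧ (e.2 = v ∨ e.1 = v) := by
  unfold At inn out; simp only [mem_filter]; tauto

lemma re_ge {e : ℂ × ℂ} (h : e.1.re < e.2.re) (h1 : |(uu e).im| ≤ 9 / 10) : 2 / 5 ≤ (uu e).re := by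
  have := uu_sq h
  have := uu_pos h
  obtain ⟨_, _⟩ := abs_le.1 h1
  nlinarith

lemma thin {E : Finset (ℂ × ℂ)} {A : Finset ℂ} {D : ℕ} (h : Good E A D) {v : ℂ} (hv : v ∈ A)
    (hs : 100 * (D : ℝ) ^ 2 * sp E v ≤ 1) {e0 : ℂ × ℂ} (h0 : At E v e0) (h1 : |(uu e0).im| ≤ 9 / 10) :
    (inn E v).card = (out E v).card ∧ ∀ e, At E v e → |(uu e).im - (uu e0).im| ≤ 8 * D * sp E v := by
  have key : ∀ I : Finset (ℂ × ℂ), ∀ i ∈ I, ∀ j ∈ I,
      |cr (uu i) (uu j)| ≤ ∑ e ∈ I, ∑ f ∈ I, |cr (uu e) (uu f)| := fun I i hi j hj =>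
    (single_le_sum (f := fun f => |cr (uu i) (uu f)|) (fun _ _ => abs_nonneg _) hj).trans
      (single_le_sum (f := fun e => ∑ f ∈ I, |cr (uu e) (uu f)|) (fun _ _ => by positivity) hi)
  have k1 : ∀ i ∈ inn E v, ∀ j ∈ inn E v, |cr (uu i) (uu j)| ≤ sp E v := fun i hi j hj =>
    (key _ i hi j hj).trans (le_add_of_nonneg_right (by positivity))
  have k2 : ∀ i ∈ out E v, ∀ j ∈ out E v, |cr (uu i) (uu j)| ≤ sp E v := fun i hi j hj =>
    (key _ i hi j hj).trans (le_add_of_nonneg_left (by positivity))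
  have hu : ∀ e, At E v e → (uu e).re ^ 2 + (uu e).im ^ 2 = 1 ∧ 0 < (uu e).re := fun e he =>
    ⟨uu_sq (h.fw e (At_iff.1 he).1), uu_pos (h.fw e (At_iff.1 he).1)⟩
  have h2 := re_ge (h.fw e0 (At_iff.1 h0).1) h1
  rcases h0 with h0 | h0
  · exact thin_core _ _ uu hu (h.bal v hv).symm (h.d1 v hv) (h.d2 v hv) k1 k2 h0 h2 hs
  · have := thin_core _ _ uu (fun e he => hu e he.symm) (h.bal v hv) (h.d2 v hv) (h.d1 v hv) k2 k1
      h0 h2 hs
    exact ⟨this.1.symm, fun e he => this.2 e he.symm⟩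

lemma q_rem (p p0 : ℝ) : 0 ≤ max p 0 ^ 2 - max p0 0 ^ 2 - 2 * max p0 0 * (p - p0) ∧
    max p 0 ^ 2 - max p0 0 ^ 2 - 2 * max p0 0 * (p - p0) ≤ (p - p0) ^ 2 := by
  rcases le_total p 0 with h | h <;> rcases le_total p0 0 with h' | h' <;>
    simp only [max_eq_left, max_eq_right, h, h'] <;> constructor <;> nlinarith [sq_nonneg (p - p0)]

lemma spline (a : ℝ) {h : ℝ} (h0 : 0 < h) : ∃ ψ : ℝ → ℝ, (∀ p, 0 ≤ ψ p) ∧
    (∀ p, p ≤ a ∨ a + 3 * h ≤ p → ψ p = 0) ∧ (∀ p, a + h ≤ p → p ≤ a + 2 * h → h ^ 2 ≤ ψ p) ∧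
    ∀ p0, ∃ l, ∀ p, |ψ p - ψ p0 - l * (p - p0)| ≤ 4 * (p - p0) ^ 2 := by
  refine ⟨fun p => max (p - a) 0 ^ 2 - 3 * max (p - a - h) 0 ^ 2 + 3 * max (p - a - 2 * h) 0 ^ 2 -
    max (p - a - 3 * h) 0 ^ 2, fun p => ?_, fun p hp => ?_, fun p h1 h2 => ?_, fun p0 => ?_⟩ <;>
    beta_reduce
  · rcases le_total (p - a) 0 with h1 | h1
    · rw [max_eq_right h1, max_eq_right (a := p - a - h) (by linarith),
        max_eq_right (a := p - a - 2 * h) (by linarith),
        max_eq_right (a := p - a - 3 * h) (by linarith)]; simp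
    rw [max_eq_left h1]
    rcases le_total (p - a - h) 0 with h2 | h2
    · rw [max_eq_right h2, max_eq_right (a := p - a - 2 * h) (by linarith),
        max_eq_right (a := p - a - 3 * h) (by linarith)]; nlinarith
    rw [max_eq_left h2]
    rcases le_total (p - a - 2 * h) 0 with h3 | h3
    · rw [max_eq_right h3, max_eq_right (a := p - a - 3 * h) (by linarith)]; nlinarith
    rw [max_eq_left h3]
    rcases le_total (p - a - 3 * h) 0 with h4 | h4
    · rw [max_eq_right h4]; nlinarith [sq_nonneg (p - a - 3 * h)]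
    · rw [max_eq_left h4]; nlinarith
  · rcases hp with hp | hp
    · rw [max_eq_right (a := p - a) (by linarith), max_eq_right (a := p - a - h) (by linarith),
        max_eq_right (a := p - a - 2 * h) (by linarith),
        max_eq_right (a := p - a - 3 * h) (by linarith)]; simp
    · rw [max_eq_left (a := p - a) (by linarith), max_eq_left (a := p - a - h) (by linarith),
        max_eq_left (a := p - a - 2 * h) (by linarith),
        max_eq_left (a := p - a - 3 * h) (by linarith)]; ring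
  · rw [max_eq_left (a := p - a) (by linarith), max_eq_left (a := p - a - h) (by linarith),
      max_eq_right (a := p - a - 2 * h) (by linarith),
      max_eq_right (a := p - a - 3 * h) (by linarith)]
    nlinarith
  · refine ⟨2 * max (p0 - a) 0 - 6 * max (p0 - a - h) 0 + 6 * max (p0 - a - 2 * h) 0 -
      2 * max (p0 - a - 3 * h) 0, fun p => ?_⟩
    have q1 := q_rem (p - a) (p0 - a)
    have q2 := q_rem (p - a - h) (p0 - a - h)
    have q3 := q_rem (p - a - 2 * h) (p0 - a - 2 * h)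
    have q4 := q_rem (p - a - 3 * h) (p0 - a - 3 * h)
    simp only [sub_sub_sub_cancel_right] at q1 q2 q3 q4
    rw [abs_le]
    constructor <;> linarith [q1.1, q1.2, q2.1, q2.2, q3.1, q3.2, q4.1, q4.2]

lemma gap {E : Finset (ℂ × ℂ)} {A : Finset ℂ} {D : ℕ} (hG : Good E A D) {s t a h : ℝ} (h0 : 0 < h)
    (r : ℂ → ℝ) (hw : ∀ v ∈ A, s < v.re → v.re ≤ t →
      ∀ e, At E v e → a < (uu e).im → (uu e).im < a + 3 * h →
      (inn E v).card = (out E v).card ∧ ∀ f, At E v f → |(uu f).im - (uu e).im| ≤ r v)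
    (hr : ∑ v ∈ A.filter (fun v => s < v.re ∧ v.re ≤ t), 8 * D * r v ^ 2 < h ^ 2)
    (hc : ∀ e ∈ cut E A s, (uu e).im ≤ a ∨ a + 3 * h ≤ (uu e).im) :
    ∀ v ∈ A, s < v.re → v.re ≤ t → ∀ e, At E v e → (uu e).im < a + h ∨ a + 2 * h < (uu e).im := by
  obtain ⟨ψ, p1, p2, p3, p4⟩ := spline a h0
  have key : ∀ t', s ≤ t' → t' ≤ t → ∀ e ∈ cut E A t', (uu e).im < a + h ∨ a + 2 * h < (uu e).im := by
    intro t' h1 h2 e he
    by_contra hn
    push Not at hn
    have e1 := (p3 _ hn.1 hn.2).trans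
      (single_le_sum (f := fun e => ψ (uu e).im) (fun _ _ => p1 _) he)
    rw [flux hG.fw A _ h1, sum_eq_zero fun e he => p2 _ (hc e he), zero_add] at e1
    refine absurd (e1.trans_lt (lt_of_le_of_lt ?_ hr)) (lt_irrefl _)
    refine (sum_le_sum fun v hv => ?_).trans (sum_le_sum_of_subset_of_nonneg
      (fun v hv => mem_filter.2 ⟨(mem_filter.1 hv).1, (mem_filter.1 hv).2.1,
        (mem_filter.1 hv).2.2.trans h2⟩) fun _ _ _ => by positivity)
    obtain ⟨hv, v1, v2⟩ := mem_filter.1 hv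
    by_cases hx : ∃ e, At E v e ∧ a < (uu e).im ∧ (uu e).im < a + 3 * h
    · obtain ⟨e0, x1, x2, x3⟩ := hx
      obtain ⟨c1, c2⟩ := hw v hv v1 (v2.trans h2) e0 x1 x2 x3
      obtain ⟨l, hl⟩ := p4 (uu e0).im
      have b := congrArg Complex.im (hG.bal v hv)
      rw [Complex.im_sum, Complex.im_sum] at b
      have bd : ∀ f, At E v f → |ψ (uu f).im - ψ (uu e0).im - l * ((uu f).im - (uu e0).im)| ≤
          4 * r v ^ 2 := fun f hf => (hl _).trans (by
        have := sq_le_sq' (abs_le.1 (c2 f hf)).1 (abs_le.1 (c2 f hf)).2; linarith)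
      have s1 := sum_le_card_nsmul (out E v) _ _ fun f hf => (abs_le.1 (bd f (Or.inr hf))).2
      have s2 := card_nsmul_le_sum (inn E v) _ _ fun f hf => (abs_le.1 (bd f (Or.inl hf))).1
      simp only [sum_sub_distrib, ← mul_sum, sum_const, nsmul_eq_mul] at s1 s2
      rw [c1] at s2
      rw [b] at s1
      have d2 : ((out E v).card : ℝ) ≤ D := by exact_mod_cast hG.d2 v hv
      nlinarith [sq_nonneg (r v)]
    · have z : ∀ f, At E v f → ψ (uu f).im = 0 := fun f hf => p2 _ (by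
        by_contra hn
        push Not at hn
        exact hx ⟨f, hf, hn⟩)
      rw [sum_eq_zero fun f hf => z f (Or.inr hf), sum_eq_zero fun f hf => z f (Or.inl hf), sub_zero]
      positivity
  intro v hv v1 v2 e he0
  obtain ⟨he, rfl | rfl⟩ := At_iff.1 he0
  · have := hG.fw e he
    by_cases q : e.1 ∈ A
    · exact key (max s e.1.re) (le_max_left _ _) (max_le (by linarith) (by linarith)) e
        (mem_filter.2 ⟨he, Or.inr hv, fun _ => le_max_right _ _, fun _ => max_lt v1 this⟩)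
    · exact key s le_rfl (by linarith) e (mem_filter.2 ⟨he, Or.inr hv, fun h => absurd h q, fun _ => v1⟩)
  · exact key e.1.re v1.le v2 e (mem_filter.2 ⟨he, Or.inl hv, fun _ => le_rfl, fun _ => hG.fw e he⟩)

lemma gapex (S : Finset ℝ) {m : ℕ} (hS : S.card ≤ m) (x : ℝ) {δ : ℝ} (h0 : 0 < δ) :
    ∃ a, x ≤ a ∧ a + δ ≤ x + (m + 1) * δ ∧ ∀ z ∈ S, z ≤ a ∨ a + δ ≤ z := by
  by_contra hn
  push Not at hn
  have : ∀ j : ℕ, ∃ z, j < m + 1 → z ∈ S ∧ x + j * δ < z ∧ z < x + j * δ + δ := by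
    intro j
    by_cases hj : j < m + 1
    · have : (j : ℝ) + 1 ≤ m + 1 := by exact_mod_cast hj
      obtain ⟨z, hz⟩ := hn (x + j * δ) (le_add_of_nonneg_right (by positivity)) (by nlinarith)
      exact ⟨z, fun _ => hz⟩
    · exact ⟨0, fun h => absurd h hj⟩
  choose z hz using this
  have := card_le_card_of_injOn (s := range (m + 1)) (t := S) z
    (fun j hj => (hz j (by simpa using hj)).1) fun i hi j hj e => by
      obtain ⟨-, a1, a2⟩ := hz i (by simpa using hi)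
      obtain ⟨-, b1, b2⟩ := hz j (by simpa using hj)
      have c1 : (i : ℝ) < j + 1 := by nlinarith
      have c2 : (j : ℝ) < i + 1 := by nlinarith
      have c3 : i < j + 1 := by exact_mod_cast c1
      have c4 : j < i + 1 := by exact_mod_cast c2
      omega
  rw [card_range] at this
  omega

lemma epoch (A : Finset ℂ) (hi : ∀ v ∈ A, ∀ w ∈ A, v.re = w.re → v = w) (bad P : ℂ → Prop)
    [DecidablePred bad] [DecidablePred P] (M : ℕ)
    (hw : ∀ s t, s ≤ t → (∀ v ∈ A, s < v.re → v.re ≤ t → ¬ bad v) →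
      (A.filter fun v => P v ∧ s < v.re ∧ v.re ≤ t).card ≤ M) :
    (A.filter P).card ≤ (A.filter bad).card + ((A.filter bad).card + 1) * M := by
  obtain ⟨T, T0, hT⟩ := ex_T A
  have key : ∀ n t, (A.filter fun v => bad v ∧ v.re ≤ t).card ≤ n →
      (A.filter fun v => P v ∧ v.re ≤ t).card ≤ n + (n + 1) * M := by
    intro n
    induction n with
    | zero =>
      intro t ht
      rw [Nat.le_zero, card_eq_zero, filter_eq_empty_iff] at ht
      refine le_trans (card_le_card fun v hv => ?_) ((hw (min t (-T)) t (min_le_left _ _)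
        fun v hv _ h2 h3 => ht hv ⟨h3, h2⟩).trans (by omega))
      rw [mem_filter] at hv ⊢
      exact ⟨hv.1, hv.2.1, (min_le_right _ _).trans_lt (hT v hv.1).1, hv.2.2⟩
    | succ n ih =>
      intro t ht
      rcases Nat.lt_or_ge n (A.filter fun v => bad v ∧ v.re ≤ t).card with h | h
      swap
      · exact (ih t h).trans (by nlinarith)
      obtain ⟨b, hb, hm⟩ := exists_max_image (A.filter fun v => bad v ∧ v.re ≤ t) Complex.re
        (card_pos.1 (by omega))
      obtain ⟨t', h1, h2⟩ : ∃ t', t' < b.re ∧ ∀ v ∈ A, v.re < b.re → v.re ≤ t' := by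
        obtain ⟨y, hy, hm⟩ := exists_max_image (insert (b.re - 1) ((A.filter fun v => v.re < b.re).image
          Complex.re)) id (insert_nonempty _ _)
        refine ⟨y, ?_, fun v hv h => hm _ (mem_insert_of_mem (mem_image_of_mem _
          (mem_filter.2 ⟨hv, h⟩)))⟩
        rcases mem_insert.1 hy with rfl | hy
        · linarith
        · obtain ⟨v, hv, rfl⟩ := mem_image.1 hy
          exact (mem_filter.1 hv).2
      have hb' := mem_filter.1 hb
      have c1 := ih t' (Nat.lt_succ_iff.1 (lt_of_lt_of_le (card_lt_card ⟨fun v hv => ?_, fun hh => ?_⟩) ht))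
      · have c2 := hw b.re t hb'.2.2 fun v hv h3 h4 h5 =>
          absurd (hm v (mem_filter.2 ⟨hv, h5, h4⟩)) (not_le.2 h3)
        have c3 : (A.filter fun v => P v ∧ v.re ≤ t) ⊆ insert b ((A.filter fun v => P v ∧ v.re ≤ t') ∪
            A.filter fun v => P v ∧ b.re < v.re ∧ v.re ≤ t) := by
          intro v hv
          rw [mem_filter] at hv
          rw [mem_insert, mem_union, mem_filter, mem_filter]
          rcases lt_trichotomy v.re b.re with h | h | h
          · exact Or.inr (Or.inl ⟨hv.1, hv.2.1, h2 v hv.1 h⟩)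
          · exact Or.inl (hi v hv.1 b hb'.1 h)
          · exact Or.inr (Or.inr ⟨hv.1, hv.2.1, h, hv.2.2⟩)
        have c4 := (card_le_card c3).trans ((card_insert_le _ _).trans
          (Nat.add_le_add_right (card_union_le _ _) 1))
        nlinarith
      · rw [mem_filter] at hv ⊢
        exact ⟨hv.1, hv.2.1, by linarith [hv.2.2, hb'.2.2]⟩
      · exact absurd (mem_filter.1 (hh hb)).2.2 (not_le.2 h1)
  refine le_trans (card_le_card fun v hv => ?_) (key _ T (card_le_card fun v hv => ?_))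
  · rw [mem_filter] at hv ⊢
    exact ⟨hv.1, hv.2, (hT v hv.1).2.le⟩
  · rw [mem_filter] at hv ⊢
    exact ⟨hv.1, hv.2.1⟩

end Pool.Agent.H.MP_b48dd4_gt
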