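import Pool.Agent.H.MP_b48dd4_gt.B

set_option autoImplicit false

/-! The induction on the number of strands. -/

namespace Pool.Agent.H.MP_b48dd4_gt

open Finset Pool.Agent.H.MP_1ce9e9_gt Classical

def Flow (E : Finset (ℂ × ℂ)) (A : Finset ℂ) : Prop :=
  ∀ v ∈ A, (inn E v).card = (out E v).card ∧ ∀ e, At E v e → |(uu e).im| ≤ 9 / 10

lemma cut_At {E : Finset (ℂ × ℂ)} {A : Finset ℂ} {t : ℝ} {e : ℂ × ℂ} (h : e ∈ cut E A t) :
    ∃ v ∈ A, At E v e := by
  obtain ⟨he, h1 | h1, -⟩ := mem_filter.1 h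
  · exact ⟨_, h1, At_iff.2 ⟨he, Or.inr rfl⟩⟩
  · exact ⟨_, h1, At_iff.2 ⟨he, Or.inl rfl⟩⟩

lemma back_sub {E : Finset (ℂ × ℂ)} (hE : ∀ e ∈ E, e.1.re < e.2.re) (A : Finset ℂ) (s t : ℝ)
    (Z : ℂ × ℂ → Prop) (B : Finset ℂ)
    (hB : ∀ v, v ∈ B ↔ v ∈ A ∧ s < v.re ∧ v.re ≤ t ∧ ∃ e, At E v e ∧ Z e)
    (hZ : ∀ v ∈ B, ∀ e, At E v e → Z e) : ∀ e ∈ back E B, e ∈ cut E A s ∧ Z e := by
  intro e he
  obtain ⟨he, h1, h2⟩ := mem_filter.1 he
  have z := hZ _ h1 e (At_iff.2 ⟨he, Or.inl rfl⟩)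
  obtain ⟨b1, b2, b3, -⟩ := (hB _).1 h1
  refine ⟨mem_filter.2 ⟨he, Or.inr b1, fun q => ?_, fun _ => b2⟩, z⟩
  by_contra hn
  exact h2 ((hB _).2 ⟨q, not_le.1 hn, (hE e he).le.trans b3, e, At_iff.2 ⟨he, Or.inr rfl⟩, z⟩)

lemma bad_card {A : Finset ℂ} {f : ℂ → ℝ} (h0 : ∀ v ∈ A, 0 < f v) {K L : ℕ} {ρ : ℝ} (hρ : 0 < ρ)
    (h : ∑ v ∈ A, f v ≤ L * ρ) : (A.filter fun v => ρ ≤ K * f v).card ≤ K * L := by
  have h1 := card_nsmul_le_sum (A.filter fun v => ρ ≤ K * f v) (fun v => K * f v) ρ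
    fun v hv => (mem_filter.1 hv).2
  have h2 : ∑ v ∈ A.filter (fun v => ρ ≤ K * f v), f v ≤ ∑ v ∈ A, f v :=
    sum_le_sum_of_subset_of_nonneg (filter_subset _ _) fun v hv _ => (h0 v hv).le
  rw [← mul_sum, nsmul_eq_mul] at h1
  have h3 := mul_le_mul_of_nonneg_left (h2.trans h) (Nat.cast_nonneg (α := ℝ) K)
  have : ((A.filter fun v => ρ ≤ K * f v).card : ℝ) ≤ K * L :=
    le_of_mul_le_mul_right (by linarith) hρ
  exact_mod_cast this

lemma win_sum {A : Finset ℂ} {f : ℂ → ℝ} (h0 : ∀ v ∈ A, 0 < f v) {K L ρ h D : ℝ} (B : Finset ℂ)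
    (hB : B ⊆ A) (hD : 0 ≤ D) (hK : 0 < K) (hρ : 0 < ρ) (hL : ∑ v ∈ A, f v ≤ L * ρ)
    (hn : ∀ v ∈ B, K * f v ≤ ρ) (hh : 512 * D ^ 3 * L * ρ ^ 2 < K * h ^ 2) :
    ∑ v ∈ B, 8 * D * (8 * D * f v) ^ 2 < h ^ 2 := by
  have h2 : ∑ v ∈ B, f v ≤ ∑ v ∈ A, f v :=
    sum_le_sum_of_subset_of_nonneg hB fun v hv _ => (h0 v hv).le
  have h3 : K * ∑ v ∈ B, 8 * D * (8 * D * f v) ^ 2 ≤ 512 * D ^ 3 * ρ * ∑ v ∈ B, f v := by
    rw [mul_sum, mul_sum]
    refine sum_le_sum fun v hv => ?_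
    have := mul_le_mul_of_nonneg_left (hn v hv)
      (mul_nonneg (by positivity : 0 ≤ 512 * D ^ 3) (h0 v (hB hv)).le)
    linarith
  have h4 := mul_le_mul_of_nonneg_left (h2.trans hL) (by positivity : 0 ≤ 512 * D ^ 3 * ρ)
  exact lt_of_mul_lt_mul_left (by linarith) hK.le

/-- squared distance of the directions -/
noncomputable def dd (e f : ℂ × ℂ) : ℝ := ((uu e).re - (uu f).re) ^ 2 + ((uu e).im - (uu f).im) ^ 2

lemma dd_sum (C : Finset (ℂ × ℂ)) (h : ∀ e ∈ C, e.1.re < e.2.re) :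
    ∑ e ∈ C, ∑ f ∈ C, dd e f = 2 * (∑ _e ∈ C, (1 : ℝ)) ^ 2 -
      2 * ((∑ e ∈ C, (uu e).re) ^ 2 + (∑ e ∈ C, (uu e).im) ^ 2) := by
  simp only [sq, sum_mul_sum]
  simp only [mul_add, mul_sum, ← sum_add_distrib, ← sum_sub_distrib]
  refine sum_congr rfl fun e he => sum_congr rfl fun f hf => ?_
  unfold dd
  linear_combination uu_sq (h e he) + uu_sq (h f hf)

lemma cr_le {e f : ℂ × ℂ} (hf : f.1.re < f.2.re) : cr (uu e) (uu f) ^ 2 ≤ dd e f := by
  have := uu_sq hf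
  unfold cr dd
  nlinarith [sq_nonneg (((uu e).re - (uu f).re) * (uu f).re + ((uu e).im - (uu f).im) * (uu f).im)]

lemma dd_le {e f : ℂ × ℂ} (he : e.1.re < e.2.re) (hf : f.1.re < f.2.re) (h1 : |(uu e).im| ≤ 9 / 10)
    (h2 : |(uu f).im| ≤ 9 / 10) : dd e f ≤ 16 * ((uu e).im - (uu f).im) ^ 2 := by
  have a1 := uu_sq he
  have a2 := uu_sq hf
  have a3 := re_ge he h1
  have a4 := re_ge hf h2
  obtain ⟨_, _⟩ := abs_le.1 h1
  obtain ⟨_, _⟩ := abs_le.1 h2
  unfold dd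
  generalize (uu e).re = c at *
  generalize (uu e).im = p at *
  generalize (uu f).re = c' at *
  generalize (uu f).im = p' at *
  have e1 : (c - c') ^ 2 * (c + c') ^ 2 = (p - p') ^ 2 * (p + p') ^ 2 := by
    linear_combination (c ^ 2 - c' ^ 2 - p ^ 2 + p' ^ 2) * (a1 - a2)
  have e2 : 16 / 25 ≤ (c + c') ^ 2 := by nlinarith
  have e3 : (p + p') ^ 2 ≤ 4 := by nlinarith
  nlinarith [sq_nonneg (c - c'), sq_nonneg (p - p')]

lemma dsum_le (C : Finset (ℂ × ℂ)) (g : ℂ × ℂ → ℂ × ℂ → ℝ) {x : ℝ} {M : ℕ} (hx : 0 ≤ x)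
    (hM : C.card ≤ M) (h : ∀ e ∈ C, ∀ f ∈ C, g e f ≤ x) : ∑ e ∈ C, ∑ f ∈ C, g e f ≤ M ^ 2 * x := by
  have c : (C.card : ℝ) ≤ M := by exact_mod_cast hM
  refine (sum_le_card_nsmul _ _ (M * x) fun e he => (sum_le_card_nsmul _ _ x (h e he)).trans ?_).trans ?_
  · rw [nsmul_eq_mul]; exact mul_le_mul_of_nonneg_right c hx
  · rw [nsmul_eq_mul, sq, mul_assoc]; exact mul_le_mul_of_nonneg_right c (by positivity)

theorem flow (D m : ℕ) : ∃ N : ℕ, ∀ (E : Finset (ℂ × ℂ)) (A : Finset ℂ), Good E A D → Flow E A →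
    (back E A).card ≤ m → A.card ≤ N := by
  have cc : ∀ (E : Finset (ℂ × ℂ)) (A : Finset ℂ), Good E A D → Flow E A → ∀ t,
      ∑ _e ∈ cut E A t, (1 : ℝ) = ∑ _e ∈ back E A, (1 : ℝ) := fun E A hG hF t =>
    cons hG.fw _ (fun v hv => by simp [(hF v hv).1]) t
  have cc' : ∀ (E : Finset (ℂ × ℂ)) (A : Finset ℂ), Good E A D → Flow E A → ∀ t,
      (cut E A t).card = (back E A).card := fun E A hG hF t => by simpa using cc E A hG hF t
  have ne : ∀ (E : Finset (ℂ × ℂ)) (A : Finset ℂ), Good E A D → Flow E A → ∀ v ∈ A,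
      ∃ e, e ∈ out E v := fun E A hG hF v hv => by
    by_contra hn
    have h1 : out E v = ∅ := eq_empty_of_forall_notMem fun e he => hn ⟨e, he⟩
    have h2 : inn E v = ∅ := by rw [← card_eq_zero, (hF v hv).1, h1, card_empty]
    have := hG.pos v hv
    simp [sp, h1, h2] at this
  induction m with
  | zero =>
    refine ⟨0, fun E A hG hF h => ?_⟩
    rw [Nat.le_zero, card_eq_zero, eq_empty_iff_forall_notMem]
    intro v hv
    obtain ⟨e, he0⟩ := ne E A hG hF v hv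
    obtain ⟨he, rfl⟩ := mem_filter.1 he0
    have : 0 < (cut E A e.1.re).card :=
      card_pos.2 ⟨e, mem_filter.2 ⟨he, Or.inl hv, fun _ => le_rfl, fun _ => hG.fw e he⟩⟩
    rw [cc' E A hG hF] at this
    omega
  | succ m ih =>
    obtain ⟨N, hN⟩ := ih
    obtain ⟨M, hM⟩ : ∃ M, M = m + 1 := ⟨_, rfl⟩
    obtain ⟨K, hK⟩ : ∃ K, K = 200 * D ^ 2 * M + 1024 * D ^ 3 * M ^ 2 * (15 * M * (M + 1)) ^ 2 +
      120 * D * M * (M + 1) + 1 := ⟨_, rfl⟩
    refine ⟨K * (2 * M ^ 2) + (K * (2 * M ^ 2) + 1) * (N + N), fun E A hG hF hb => ?_⟩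
    rw [← hM] at hb
    have M0 : (0 : ℝ) < M := by rw [hM]; positivity
    have K' : (K : ℝ) = 200 * D ^ 2 * M + 1024 * D ^ 3 * M ^ 2 * (15 * M * (M + 1)) ^ 2 +
      120 * D * M * (M + 1) + 1 := by rw [hK]; push_cast; ring
    have K0 : (0 : ℝ) < K := by rw [K']; positivity
    have fwc : ∀ t, ∀ e ∈ cut E A t, e.1.re < e.2.re := fun t e he => hG.fw e (mem_filter.1 he).1
    have bnd : ∀ t, ∀ e ∈ cut E A t, |(uu e).im| ≤ 9 / 10 := fun t e he => by
      obtain ⟨v, hv, h⟩ := cut_At he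
      exact (hF v hv).2 e h
    obtain ⟨W, hW⟩ : ∃ W, W = 2 * (∑ _e ∈ back E A, (1 : ℝ)) ^ 2 -
      2 * ((∑ e ∈ back E A, (uu e).re) ^ 2 + (∑ e ∈ back E A, (uu e).im) ^ 2) := ⟨_, rfl⟩
    have hW' : ∀ t, ∑ e ∈ cut E A t, ∑ f ∈ cut E A t, dd e f = W := fun t => by
      rw [dd_sum _ (fwc t), cc E A hG hF,
        cons hG.fw _ (fun v hv => by rw [← Complex.re_sum, ← Complex.re_sum, hG.bal v hv]),
        cons hG.fw _ (fun v hv => by rw [← Complex.im_sum, ← Complex.im_sum, hG.bal v hv]), hW]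
    have d0 : ∀ e f, 0 ≤ dd e f := fun e f => by unfold dd; positivity
    have W0 : 0 ≤ W := by rw [← hW' 0]; exact sum_nonneg fun _ _ => sum_nonneg fun _ _ => d0 _ _
    have W1 : √W ≤ 2 * M := by
      rw [Real.sqrt_le_left (by positivity), hW, sum_const, nsmul_eq_mul, mul_one]
      have : ((back E A).card : ℝ) ≤ M := by exact_mod_cast hb
      nlinarith [sq_nonneg (∑ e ∈ back E A, (uu e).re), sq_nonneg (∑ e ∈ back E A, (uu e).im),
        Nat.cast_nonneg (α := ℝ) (back E A).card]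
    have ar : ∑ v ∈ A, sp E v ≤ ((2 * M ^ 2 : ℕ) : ℝ) * √W := by
      obtain ⟨T, -, hT⟩ := ex_T A
      have key : ∀ t, ∑ e ∈ cut E A t, ∑ f ∈ cut E A t, |cr (uu e) (uu f)| ≤ M ^ 2 * √W := fun t =>
        dsum_le _ _ (Real.sqrt_nonneg _) ((cc' E A hG hF t).le.trans hb) fun e he f hf =>
          Real.abs_le_sqrt ((cr_le (fwc t f hf)).trans (by
            rw [← hW' t]
            exact (single_le_sum (f := fun f => dd e f) (fun _ _ => d0 _ _) hf).trans
              (single_le_sum (f := fun e => ∑ f ∈ cut E A t, dd e f)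
                (fun _ _ => sum_nonneg fun _ _ => d0 _ _) he)))
      have k1 := key (-T)
      have k2 := key T
      rw [cut_lo E fun v hv => (hT v hv).1] at k1
      rw [cut_hi E fun v hv => (hT v hv).2] at k2
      have := area hG
      push_cast
      linarith
    have ρ2 := Real.sq_sqrt W0
    have ρ0 := Real.sqrt_nonneg W
    generalize √W = ρ at *
    rcases eq_or_lt_of_le ρ0 with rfl | ρp
    · rcases A.eq_empty_or_nonempty with rfl | hA
      · simp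
      · have := sum_pos hG.pos hA
        linarith
    have b1 := bad_card hG.pos (K := K) ρp ar
    have b2 := epoch A hG.inj (fun v => ρ ≤ K * sp E v) (fun v => v ∈ A) (N + N) ?_
    · rw [filter_true_of_mem fun _ h => h] at b2
      exact b2.trans (add_le_add b1 (Nat.mul_le_mul_right _ (by omega)))
    intro s t _ hw
    have hw' : ∀ v ∈ A, s < v.re → v.re ≤ t → K * sp E v ≤ ρ := fun v h1 h2 h3 =>
      (not_le.1 (hw v h1 h2 h3)).le
    obtain ⟨e0, he0, f0, hf0, h0⟩ : ∃ e ∈ cut E A s, ∃ f ∈ cut E A s,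
        (uu e).im + ρ / (5 * M) < (uu f).im := by
      by_contra hn
      push Not at hn
      have := dsum_le (cut E A s) dd (x := 16 * (ρ / (5 * M)) ^ 2) (by positivity)
        ((cc' E A hG hF s).le.trans hb) fun e he f hf =>
          (dd_le (fwc s e he) (fwc s f hf) (bnd s e he) (bnd s f hf)).trans
            (mul_le_mul_of_nonneg_left (sq_le_sq' (by linarith [hn e he f hf])
              (by linarith [hn f hf e he])) (by norm_num))
      rw [hW', show (M : ℝ) ^ 2 * (16 * (ρ / (5 * M)) ^ 2) = 16 / 25 * ρ ^ 2 by field_simp; ring] at this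
      nlinarith
    obtain ⟨h, hh⟩ : ∃ h, h = ρ / (15 * M * (M + 1)) := ⟨_, rfl⟩
    have h1 : h * (15 * M * (M + 1)) = ρ := by rw [hh]; field_simp
    have hp : 0 < h := by rw [hh]; positivity
    obtain ⟨a, a1, a2, a3⟩ := gapex ((cut E A s).image fun e => (uu e).im)
      (card_image_le.trans ((cc' E A hG hF s).le.trans hb)) (uu e0).im (δ := 3 * h) (by positivity)
    rw [show ((M : ℝ) + 1) * (3 * h) = ρ / (5 * M) by rw [← h1]; field_simp; ring] at a2
    have th : ∀ v ∈ A, s < v.re → v.re ≤ t → ∀ e, At E v e → (inn E v).card = (out E v).card ∧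
        ∀ f, At E v f → |(uu f).im - (uu e).im| ≤ 8 * D * sp E v := fun v q1 q2 q3 e he => by
      refine thin hG q1 ?_ he ((hF v q1).2 e he)
      have q4 := hw' v q1 q2 q3
      have q5 := hG.pos v q1
      have q6 : 200 * (D : ℝ) ^ 2 * M ≤ K := by
        rw [K', add_assoc, add_assoc]; exact le_add_of_nonneg_right (by positivity)
      have q7 := mul_le_mul_of_nonneg_right q6 q5.le
      exact le_of_mul_le_mul_right (by linarith : 100 * (D : ℝ) ^ 2 * sp E v * (2 * M) ≤ 1 * (2 * M))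
        (by positivity)
    have sm : ∀ v ∈ A, s < v.re → v.re ≤ t → 8 * D * sp E v ≤ h := fun v q1 q2 q3 => by
      have q4 := hw' v q1 q2 q3
      have q5 := hG.pos v q1
      have q6 : 120 * (D : ℝ) * M * (M + 1) ≤ K := by
        rw [K']; have : (0 : ℝ) ≤ 200 * D ^ 2 * M + 1024 * D ^ 3 * M ^ 2 * (15 * M * (M + 1)) ^ 2 := by
          positivity
        linarith
      have q7 := mul_le_mul_of_nonneg_right q6 q5.le
      exact le_of_mul_le_mul_right (by linarith : 8 * D * sp E v * (15 * M * (M + 1)) ≤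
        h * (15 * M * (M + 1))) (by positivity)
    have gp := gap hG (s := s) (t := t) (a := a) hp (fun v => 8 * D * sp E v)
      (fun v q1 q2 q3 e he _ _ => th v q1 q2 q3 e he)
      (win_sum hG.pos _ (filter_subset _ _) (Nat.cast_nonneg D) K0 ρp ar
        (fun v hv => hw' v (mem_filter.1 hv).1 (mem_filter.1 hv).2.1 (mem_filter.1 hv).2.2) (by
          have q6 : 1024 * (D : ℝ) ^ 3 * M ^ 2 * (15 * M * (M + 1)) ^ 2 < K := by
            rw [K']; have : (0 : ℝ) ≤ 200 * D ^ 2 * M + 120 * D * M * (M + 1) := by positivity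
            linarith
          have q7 := mul_lt_mul_of_pos_right q6 (by positivity : 0 < h ^ 2)
          rw [← h1]; push_cast; linarith))
      (fun e he => a3 _ (mem_image_of_mem _ he))
    have sub : ∀ (Z : ℂ × ℂ → Prop), (∃ e ∈ cut E A s, ¬ Z e) →
        (∀ v ∈ A, s < v.re → v.re ≤ t → ∀ e, At E v e → Z e → ∀ f, At E v f → Z f) →
        (A.filter fun v => s < v.re ∧ v.re ≤ t ∧ ∃ e, At E v e ∧ Z e).card ≤ N := by
      rintro Z ⟨e, he, hZ⟩ hc
      refine hN E _ (hG.sub (filter_subset _ _)) (fun v hv => hF v (mem_filter.1 hv).1) ?_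
      have := back_sub hG.fw A s t Z _ (fun v => mem_filter) fun v hv f hf => by
        obtain ⟨q1, q2, q3, e, q4, q5⟩ := mem_filter.1 hv
        exact hc v q1 q2 q3 e q4 q5 f hf
      have h3 := (card_lt_card ⟨fun f hf => (this f hf).1, fun hh => hZ (this e (hh he)).2⟩).trans_le
        ((cc' E A hG hF s).le.trans hb)
      omega
    have c1 := sub (fun e => (uu e).im < a + h) ⟨f0, hf0, by linarith⟩ fun v q1 q2 q3 e he z f hf =>
      (gp v q1 q2 q3 f hf).resolve_right (by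
        have := (abs_le.1 ((th v q1 q2 q3 e he).2 f hf)).2; have := sm v q1 q2 q3; linarith)
    have c2 := sub (fun e => a + 2 * h < (uu e).im) ⟨e0, he0, by linarith⟩
      fun v q1 q2 q3 e he z f hf => (gp v q1 q2 q3 f hf).resolve_left (by
        have := (abs_le.1 ((th v q1 q2 q3 e he).2 f hf)).1; have := sm v q1 q2 q3; linarith)
    refine le_trans (card_le_card fun v hv => ?_) ((card_union_le _ _).trans (add_le_add c1 c2))
    obtain ⟨q1, -, q2, q3⟩ := mem_filter.1 hv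
    obtain ⟨e, he⟩ := ne E A hG hF v q1
    rcases gp v q1 q2 q3 e (Or.inr he) with z | z
    · exact mem_union_left _ (mem_filter.2 ⟨q1, q2, q3, e, Or.inr he, z⟩)
    · exact mem_union_right _ (mem_filter.2 ⟨q1, q2, q3, e, Or.inr he, z⟩)

theorem lev0 (D k : ℕ) : ∃ N : ℕ, ∀ (E : Finset (ℂ × ℂ)) (A : Finset ℂ), Good E A D →
    (back E A).card ≤ k → (fwd E A).card ≤ k →
    (A.filter fun v => ∃ e, At E v e ∧ |(uu e).im| ≤ 3 / 4).card ≤ N := by
  obtain ⟨N, hN⟩ := flow D (3 * k)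
  obtain ⟨K, hK⟩ : ∃ K, K = 100 * D ^ 2 + 1024 * D ^ 3 * k ^ 2 * (20 * (3 * k + 1)) ^ 2 +
    160 * D * (3 * k + 1) + 1 := ⟨_, rfl⟩
  refine ⟨K * (2 * k ^ 2) + (K * (2 * k ^ 2) + 1) * N, fun E A hG hb hf => ?_⟩
  have K' : (K : ℝ) = 100 * D ^ 2 + 1024 * D ^ 3 * k ^ 2 * (20 * (3 * k + 1)) ^ 2 +
    160 * D * (3 * k + 1) + 1 := by rw [hK]; push_cast; ring
  have K0 : (0 : ℝ) < K := by rw [K']; positivity
  have c1 : ∀ e ∈ E, ∀ f ∈ E, |cr (uu e) (uu f)| ≤ 1 := fun e he f hf => by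
    have := uu_sq (hG.fw e he)
    have := uu_sq (hG.fw f hf)
    rw [abs_le, cr]
    constructor <;> nlinarith [sq_nonneg ((uu e).im + (uu f).re), sq_nonneg ((uu e).re + (uu f).im),
      sq_nonneg ((uu e).im - (uu f).re), sq_nonneg ((uu e).re - (uu f).im)]
  have ar : ∑ v ∈ A, sp E v ≤ ((2 * k ^ 2 : ℕ) : ℝ) * 1 := by
    have k1 := dsum_le _ _ zero_le_one hb fun e he f hf => c1 e (mem_filter.1 he).1 f (mem_filter.1 hf).1
    have k2 := dsum_le _ _ zero_le_one hf fun e he f hf => c1 e (mem_filter.1 he).1 f (mem_filter.1 hf).1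
    have := area hG
    push_cast
    linarith
  have b1 := bad_card hG.pos (K := K) one_pos ar
  refine (epoch A hG.inj (fun v => 1 ≤ K * sp E v) _ N ?_).trans
    (add_le_add b1 (Nat.mul_le_mul_right _ (by omega)))
  intro s t _ hw
  have hw' : ∀ v ∈ A, s < v.re → v.re ≤ t → K * sp E v ≤ 1 := fun v h1 h2 h3 =>
    (not_le.1 (hw v h1 h2 h3)).le
  have cS : ((cut E A s).filter fun e => |(uu e).im| ≤ 9 / 10).card ≤ 3 * k := by
    have q1 := card_nsmul_le_sum ((cut E A s).filter fun e => |(uu e).im| ≤ 9 / 10)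
      (fun e => (uu e).re) (2 / 5) fun e he =>
        re_ge (hG.fw e (mem_filter.1 (mem_filter.1 he).1).1) (mem_filter.1 he).2
    have q2 := sum_le_sum_of_subset_of_nonneg (f := fun e => (uu e).re)
      (filter_subset (fun e => |(uu e).im| ≤ 9 / 10) (cut E A s))
      fun e he _ => (uu_pos (hG.fw e (mem_filter.1 he).1)).le
    rw [cons hG.fw _ (fun v hv => by rw [← Complex.re_sum, ← Complex.re_sum, hG.bal v hv])] at q2
    have q3 := sum_le_card_nsmul (back E A) (fun e => (uu e).re) 1 fun e he => by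
      have := uu_sq (hG.fw e (mem_filter.1 he).1)
      nlinarith [sq_nonneg ((uu e).re - 1), sq_nonneg (uu e).im]
    have q4 : ((back E A).card : ℝ) ≤ k := by exact_mod_cast hb
    rw [nsmul_eq_mul] at q1 q3
    have : (((cut E A s).filter fun e => |(uu e).im| ≤ 9 / 10).card : ℝ) ≤ 3 * k := by
      linarith [Nat.cast_nonneg (α := ℝ) k]
    exact_mod_cast this
  obtain ⟨h, hh⟩ : ∃ h : ℝ, h = 1 / (20 * (3 * k + 1)) := ⟨_, rfl⟩
  have h1 : h * (20 * (3 * k + 1)) = 1 := by rw [hh]; field_simp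
  have hp : 0 < h := by rw [hh]; positivity
  have th : ∀ v ∈ A, s < v.re → v.re ≤ t → ∀ e, At E v e → |(uu e).im| ≤ 9 / 10 →
      (inn E v).card = (out E v).card ∧
      ∀ f, At E v f → |(uu f).im - (uu e).im| ≤ 8 * D * sp E v := fun v q1 q2 q3 e he q => by
    refine thin hG q1 ?_ he q
    have q6 : 100 * (D : ℝ) ^ 2 ≤ K := by
      rw [K', add_assoc, add_assoc]; exact le_add_of_nonneg_right (by positivity)
    exact (mul_le_mul_of_nonneg_right q6 (hG.pos v q1).le).trans (hw' v q1 q2 q3)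
  have sm : ∀ v ∈ A, s < v.re → v.re ≤ t → 8 * D * sp E v ≤ h := fun v q1 q2 q3 => by
    have q4 := hw' v q1 q2 q3
    have q6 : 160 * (D : ℝ) * (3 * k + 1) ≤ K := by
      rw [K']; have : (0 : ℝ) ≤ 100 * D ^ 2 + 1024 * D ^ 3 * k ^ 2 * (20 * (3 * k + 1)) ^ 2 := by
        positivity
      linarith
    have q7 := mul_le_mul_of_nonneg_right q6 (hG.pos v q1).le
    exact le_of_mul_le_mul_right (by linarith : 8 * D * sp E v * (20 * (3 * k + 1)) ≤
      h * (20 * (3 * k + 1))) (by positivity)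
  have gp : ∀ x : ℝ, -9 / 10 ≤ x → x + 3 / 20 ≤ 9 / 10 → ∃ a, x ≤ a ∧ a + 3 * h ≤ x + 3 / 20 ∧
      ∀ v ∈ A, s < v.re → v.re ≤ t → ∀ e, At E v e → (uu e).im < a + h ∨ a + 2 * h < (uu e).im := by
    intro x x1 x2
    obtain ⟨a, a1, a2, a3⟩ := gapex (((cut E A s).filter fun e => |(uu e).im| ≤ 9 / 10).image
      fun e => (uu e).im) (card_image_le.trans cS) x (δ := 3 * h) (by positivity)
    have a2' : a + 3 * h ≤ x + 3 / 20 := by push_cast at a2; linarith
    refine ⟨a, a1, a2', gap hG hp (fun v => 8 * D * sp E v)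
      (fun v q1 q2 q3 e he z1 z2 => th v q1 q2 q3 e he (abs_le.2 ⟨by linarith, by linarith⟩))
      (win_sum hG.pos _ (filter_subset _ _) (Nat.cast_nonneg D) K0 one_pos ar
        (fun v hv => hw' v (mem_filter.1 hv).1 (mem_filter.1 hv).2.1 (mem_filter.1 hv).2.2) ?_)
      fun e he => ?_⟩
    · have q6 : 1024 * (D : ℝ) ^ 3 * k ^ 2 * (20 * (3 * k + 1)) ^ 2 < K := by
        rw [K']; have : (0 : ℝ) ≤ 100 * D ^ 2 + 160 * D * (3 * k + 1) := by positivity
        linarith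
      have q7 := mul_lt_mul_of_pos_right q6 (by positivity : 0 < h ^ 2)
      rw [← h1]; push_cast; linarith
    · by_cases q : |(uu e).im| ≤ 9 / 10
      · exact a3 _ (mem_image_of_mem _ (mem_filter.2 ⟨he, q⟩))
      · rcases lt_abs.1 (not_le.1 q) with q | q
        · right; linarith
        · left; linarith
  obtain ⟨a, a1, a2, a3⟩ := gp (3 / 4) (by norm_num) (by norm_num)
  obtain ⟨b, b1, b2, b3⟩ := gp (-9 / 10) (by norm_num) (by norm_num)
  have zb : ∀ e, b + 2 * h < (uu e).im ∧ (uu e).im < a + h → |(uu e).im| ≤ 9 / 10 := fun e z =>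
    abs_le.2 ⟨by linarith [z.1], by linarith [z.2]⟩
  have hc : ∀ v ∈ A.filter fun v => s < v.re ∧ v.re ≤ t ∧
      ∃ e, At E v e ∧ b + 2 * h < (uu e).im ∧ (uu e).im < a + h,
      ∀ f, At E v f → b + 2 * h < (uu f).im ∧ (uu f).im < a + h := by
    intro v hv f hf
    obtain ⟨q1, q2, q3, e, he, z⟩ := mem_filter.1 hv
    have q4 := abs_le.1 ((th v q1 q2 q3 e he (zb e z)).2 f hf)
    have q5 := sm v q1 q2 q3
    exact ⟨(b3 v q1 q2 q3 f hf).resolve_left (by linarith [z.1, q4.1]),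
      (a3 v q1 q2 q3 f hf).resolve_right (by linarith [z.2, q4.2])⟩
  refine le_trans (card_le_card fun v hv => ?_) (hN E (A.filter fun v => s < v.re ∧ v.re ≤ t ∧
      ∃ e, At E v e ∧ b + 2 * h < (uu e).im ∧ (uu e).im < a + h) (hG.sub (filter_subset _ _))
      (fun v hv => ⟨?_, fun f hf => zb f (hc v hv f hf)⟩) (le_trans (card_le_card fun e he => ?_) cS))
  · obtain ⟨q1, ⟨e, he, z⟩, q2, q3⟩ := mem_filter.1 hv
    have z := abs_le.1 z
    exact mem_filter.2 ⟨q1, q2, q3, e, he, by linarith [z.1], by linarith [z.2]⟩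
  · obtain ⟨q1, q2, q3, e, he, z⟩ := mem_filter.1 hv
    exact (th v q1 q2 q3 e he (zb e z)).1
  · have := back_sub hG.fw A s t (fun e => b + 2 * h < (uu e).im ∧ (uu e).im < a + h) _
      (fun v => mem_filter) hc e he
    exact mem_filter.2 ⟨this.1, zb e this.2⟩

end Pool.Agent.H.MP_b48dd4_gt
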