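import Pool.Agent.H.MP_b48dd4_gt.C

set_option autoImplicit false

/-! From planar nets to swept families. -/

namespace Pool.Agent.H.MP_b48dd4_gt

open Finset Pool.Agent.H.MP_1ce9e9_gt Classical

lemma cr_ne {u w : ℂ} (hu : u.re ^ 2 + u.im ^ 2 = 1) (hw : w.re ^ 2 + w.im ^ 2 = 1)
    (h1 : 0 < u.re) (h2 : 0 < w.re) (h : cr u w = 0) : u = w := by
  unfold cr at h
  have e1 : (u.re - w.re) * (u.re + w.re) = 0 := by
    linear_combination -(u.im * w.re + u.re * w.im) * h + w.re ^ 2 * hu - u.re ^ 2 * hw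
  have e2 : u.re = w.re := by
    have := (mul_eq_zero.1 e1).resolve_right (by linarith)
    linarith
  refine Complex.ext e2 (mul_right_cancel₀ h2.ne' ?_)
  rw [e2] at h; linarith

theorem frame (D n : ℕ) : ∃ N : ℕ, ∀ (V B : Finset ℂ) (R : ℂ → ℂ → Prop), (∀ a b, R a b → R b a) →
    (∀ a, ¬ R a a) → B ⊆ V → (∀ v ∈ V, ∀ w ∈ V, v.re = w.re → v = w) →
    (∀ v ∈ B, ∑ w ∈ V.filter (R v), un (w - v) = 0) → (∀ v ∈ B, 3 ≤ (V.filter (R v)).card) →
    (∀ v ∈ V, (V.filter (R v)).card ≤ D) →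
    (∀ v ∈ V, ∀ w ∈ V, ∀ w' ∈ V, R v w → R v w' → un (w - v) = un (w' - v) → w = w') →
    (V \ B).card ≤ n →
    (B.filter fun v => ∃ w ∈ V, R v w ∧ |(un (w - v)).im| ≤ 3 / 4).card ≤ N := by
  obtain ⟨N, hN⟩ := lev0 D (n * D)
  refine ⟨N, fun V B R hs hi hB hr hb h3 hD hu hn => ?_⟩
  obtain ⟨E, hE⟩ : ∃ E : Finset (ℂ × ℂ), ∀ e, e ∈ E ↔ e.1 ∈ V ∧ e.2 ∈ V ∧ R e.1 e.2 ∧ e.1.re < e.2.re :=
    ⟨(V ×ˢ V).filter fun e => R e.1 e.2 ∧ e.1.re < e.2.re, fun e => by simp [and_assoc]⟩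
  have ho : ∀ v ∈ V, out E v = ((V.filter (R v)).filter fun w => v.re < w.re).image fun w => (v, w) := by
    intro v hv
    ext ⟨a, b⟩
    simp only [out, mem_filter, mem_image, hE, Prod.mk.injEq]
    constructor
    · rintro ⟨⟨-, h1, h2, h4⟩, rfl⟩; exact ⟨b, ⟨⟨h1, h2⟩, h4⟩, rfl, rfl⟩
    · rintro ⟨w, ⟨⟨h1, h2⟩, h4⟩, rfl, rfl⟩; exact ⟨⟨hv, h1, h2, h4⟩, rfl⟩
  have hn' : ∀ v ∈ V, inn E v =
      ((V.filter (R v)).filter fun w => ¬ v.re < w.re).image fun w => (w, v) := by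
    intro v hv
    ext ⟨a, b⟩
    simp only [inn, mem_filter, mem_image, hE, Prod.mk.injEq]
    constructor
    · rintro ⟨⟨h1, -, h2, h4⟩, rfl⟩; exact ⟨a, ⟨⟨h1, hs _ _ h2⟩, not_lt.2 h4.le⟩, rfl, rfl⟩
    · rintro ⟨w, ⟨⟨h1, h2⟩, h4⟩, rfl, rfl⟩
      refine ⟨⟨h1, hv, hs _ _ h2, lt_of_le_of_ne (not_lt.1 h4) fun e => ?_⟩, rfl⟩
      rw [hr w h1 v hv e] at h2
      exact hi _ h2
  have i1 : ∀ (v : ℂ) (S : Finset ℂ), Set.InjOn (fun w : ℂ => (v, w)) (S : Set ℂ) :=
    fun v S a _ b _ e => congrArg Prod.snd e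
  have i2 : ∀ (v : ℂ) (S : Finset ℂ), Set.InjOn (fun w : ℂ => (w, v)) (S : Set ℂ) :=
    fun v S a _ b _ e => congrArg Prod.fst e
  have fw : ∀ e ∈ E, e.1.re < e.2.re := fun e he => ((hE e).1 he).2.2.2
  have d1 : ∀ v ∈ V, (inn E v).card ≤ D := fun v hv => by
    rw [hn' v hv]; exact card_image_le.trans ((card_filter_le _ _).trans (hD v hv))
  have d2 : ∀ v ∈ V, (out E v).card ≤ D := fun v hv => by
    rw [ho v hv]; exact card_image_le.trans ((card_filter_le _ _).trans (hD v hv))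
  have hG : Good E B D := by
    refine ⟨fw, fun v hv w hw => hr v (hB hv) w (hB hw), fun v hv => ?_, fun v hv => ?_,
      fun v hv => d1 v (hB hv), fun v hv => d2 v (hB hv)⟩
    · have := hb v hv
      rw [← sum_filter_add_sum_filter_not _ fun w => v.re < w.re] at this
      rw [ho v (hB hv), hn' v (hB hv), sum_image (i1 _ _), sum_image (i2 _ _)]
      simp only [uu]
      rw [eq_neg_of_add_eq_zero_left this, ← sum_neg_distrib]
      refine sum_congr rfl fun w _ => ?_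
      rw [← un_neg, neg_sub]
    · have key : ∀ I : Finset (ℂ × ℂ), I ⊆ E → ∀ i ∈ I, ∀ j ∈ I, uu i ≠ uu j →
          0 < ∑ e ∈ I, ∑ f ∈ I, |cr (uu e) (uu f)| := fun I hI i hi j hj hne =>
        (abs_pos.2 fun e => hne (cr_ne (uu_sq (fw i (hI hi))) (uu_sq (fw j (hI hj)))
          (uu_pos (fw i (hI hi))) (uu_pos (fw j (hI hj))) e)).trans_le
        ((single_le_sum (f := fun f => |cr (uu i) (uu f)|) (fun _ _ => abs_nonneg _) hj).trans
        (single_le_sum (f := fun e => ∑ f ∈ I, |cr (uu e) (uu f)|) (fun _ _ => by positivity) hi))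
      have c := card_filter_add_card_filter_not (s := V.filter (R v)) fun w => v.re < w.re
      have c3 := h3 v hv
      unfold sp
      rcases (by omega : 1 < ((V.filter (R v)).filter fun w => v.re < w.re).card ∨
        1 < ((V.filter (R v)).filter fun w => ¬ v.re < w.re).card) with h | h
      · obtain ⟨a, ha, b, hb, hab⟩ := one_lt_card.1 h
        refine add_pos_of_nonneg_of_pos (by positivity) (key _ (filter_subset _ _) (v, a)
          (ho v (hB hv) ▸ mem_image_of_mem _ ha) (v, b) (ho v (hB hv) ▸ mem_image_of_mem _ hb)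
          fun e => hab ?_)
        simp only [mem_filter] at ha hb
        exact hu v (hB hv) a ha.1.1 b hb.1.1 ha.1.2 hb.1.2 e
      · obtain ⟨a, ha, b, hb, hab⟩ := one_lt_card.1 h
        refine add_pos_of_pos_of_nonneg (key _ (filter_subset _ _) (a, v)
          (hn' v (hB hv) ▸ mem_image_of_mem _ ha) (b, v) (hn' v (hB hv) ▸ mem_image_of_mem _ hb)
          fun e => hab ?_) (by positivity)
        simp only [mem_filter] at ha hb
        refine hu v (hB hv) a ha.1.1 b hb.1.1 ha.1.2 hb.1.2 (neg_injective ?_)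
        rw [← un_neg, ← un_neg, neg_sub, neg_sub]; exact e
  refine le_trans (card_le_card fun v hv => ?_) (hN E B hG ?_ ?_)
  · obtain ⟨hv, w, h1, h2, h4⟩ := mem_filter.1 hv
    refine mem_filter.2 ⟨hv, ?_⟩
    by_cases q : v.re < w.re
    · exact ⟨(v, w), Or.inr (ho v (hB hv) ▸ mem_image_of_mem _
        (mem_filter.2 ⟨mem_filter.2 ⟨h1, h2⟩, q⟩)), h4⟩
    · refine ⟨(w, v), Or.inl (hn' v (hB hv) ▸ mem_image_of_mem _
        (mem_filter.2 ⟨mem_filter.2 ⟨h1, h2⟩, q⟩)), ?_⟩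
      rw [← neg_sub, un_neg, Complex.neg_im, abs_neg] at h4
      exact h4
  · refine le_trans (card_le_card fun e he => ?_) ((card_biUnion_le_card_mul (V \ B) (out E) D
      fun v hv => d2 v (mem_sdiff.1 hv).1).trans (Nat.mul_le_mul_right _ hn))
    obtain ⟨h1, -, h2⟩ := mem_filter.1 he
    exact mem_biUnion.2 ⟨e.1, mem_sdiff.2 ⟨((hE e).1 h1).1, h2⟩, mem_filter.2 ⟨h1, rfl⟩⟩
  · refine le_trans (card_le_card fun e he => ?_) ((card_biUnion_le_card_mul (V \ B) (inn E) D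
      fun v hv => d1 v (mem_sdiff.1 hv).1).trans (Nat.mul_le_mul_right _ hn))
    obtain ⟨h1, -, h2⟩ := mem_filter.1 he
    exact mem_biUnion.2 ⟨e.2, mem_sdiff.2 ⟨((hE e).1 h1).2.1, h2⟩, mem_filter.2 ⟨h1, rfl⟩⟩

lemma un_rot {r : ℂ} (hr : ‖r‖ = 1) (z : ℂ) : un (r * z) = r * un z := by
  unfold un; rw [norm_mul, hr, one_mul, mul_div_assoc]

lemma un_norm {z : ℂ} (hz : z ≠ 0) : ‖un z‖ = 1 := by
  unfold un
  rw [norm_div, Complex.norm_real, Real.norm_of_nonneg (norm_nonneg _), div_self (norm_ne_zero_iff.2 hz)]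

theorem frame2 (D n : ℕ) : ∃ N : ℕ, ∀ (V B : Finset ℂ) (R : ℂ → ℂ → Prop), (∀ a b, R a b → R b a) →
    (∀ a, ¬ R a a) → B ⊆ V →
    (∀ v ∈ B, ∑ w ∈ V.filter (R v), un (w - v) = 0) → (∀ v ∈ B, 3 ≤ (V.filter (R v)).card) →
    (∀ v ∈ V, (V.filter (R v)).card ≤ D) →
    (∀ v ∈ V, ∀ w ∈ V, ∀ w' ∈ V, R v w → R v w' → un (w - v) = un (w' - v) → w = w') →
    (V \ B).card ≤ n → B.card ≤ N := by
  obtain ⟨N, hN⟩ := frame D n
  refine ⟨N + N, fun V B R hs hi hB hb h3 hD hu hn => ?_⟩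
  have key : ∀ z : ℂ, ‖z‖ = 1 → (∀ v ∈ V, ∀ w ∈ V, (z * v).re = (z * w).re → v = w) →
      (B.filter fun v => ∃ w ∈ V, R v w ∧ |(z * un (w - v)).im| ≤ 3 / 4).card ≤ N := by
    intro z hz hr
    have z0 : z ≠ 0 := fun h => by simp [h] at hz
    have inj : Function.Injective fun x : ℂ => z * x := mul_right_injective₀ z0
    have fl : ∀ v, (V.image fun x => z * x).filter (fun b => R (z⁻¹ * (z * v)) (z⁻¹ * b)) =
        (V.filter (R v)).image fun x => z * x := fun v => by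
      rw [filter_image]; simp only [inv_mul_cancel_left₀ z0]
    refine le_trans ?_ (hN (V.image fun x => z * x) (B.image fun x => z * x)
      (fun a b => R (z⁻¹ * a) (z⁻¹ * b)) (fun a b => hs _ _) (fun a => hi _) (image_subset_image hB)
      ?_ ?_ ?_ ?_ ?_ ?_)
    · refine card_le_card_of_injOn (fun x => z * x) (fun v hv => ?_) inj.injOn
      obtain ⟨h1, w, h2, h4, h5⟩ := mem_filter.1 (mem_coe.1 hv)
      refine mem_coe.2 (mem_filter.2 ⟨mem_image_of_mem _ h1, z * w, mem_image_of_mem _ h2, ?_, ?_⟩)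
      · simpa only [inv_mul_cancel_left₀ z0] using h4
      · rwa [← mul_sub, un_rot hz]
    · simp only [forall_mem_image]
      exact fun v hv w hw e => by rw [hr v hv w hw e]
    · simp only [forall_mem_image]
      intro v hv
      rw [fl, sum_image inj.injOn]
      simp only [← mul_sub, un_rot hz, ← mul_sum, hb v hv, mul_zero]
    · simp only [forall_mem_image]
      intro v hv
      rw [fl, card_image_of_injective _ inj]; exact h3 v hv
    · simp only [forall_mem_image]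
      intro v hv
      rw [fl, card_image_of_injective _ inj]; exact hD v hv
    · simp only [forall_mem_image, inv_mul_cancel_left₀ z0, ← mul_sub, un_rot hz]
      exact fun v hv w hw w' hw' h1 h2 e => by rw [hu v hv w hw w' hw' h1 h2 (inj e)]
    · rw [← image_sdiff _ _ inj, card_image_of_injective _ inj]; exact hn
  obtain ⟨s, hs'⟩ := Infinite.exists_notMem_finset
    (((V ×ˢ V).image fun e : ℂ × ℂ => (e.1 - e.2).re / (e.1 - e.2).im) ∪
      (V ×ˢ V).image fun e : ℂ × ℂ => -(e.1 - e.2).im / (e.1 - e.2).re)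
  rw [mem_union, not_or] at hs'
  have y0 : (1 + s * Complex.I : ℂ) ≠ 0 := fun h => by simpa using congrArg Complex.re h
  have y1 : ∀ d : ℂ, (un (1 + s * Complex.I) * d).re = (d.re - s * d.im) / ‖1 + s * Complex.I‖ :=
    fun d => by unfold un; rw [div_mul_eq_mul_div, Complex.div_ofReal_re]; simp
  have y2 : ∀ d : ℂ, (un (1 + s * Complex.I) * Complex.I * d).re =
      -(d.im + s * d.re) / ‖1 + s * Complex.I‖ := fun d => by
    unfold un; rw [div_mul_eq_mul_div, div_mul_eq_mul_div, Complex.div_ofReal_re]; simp; ring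
  have y3 := norm_ne_zero_iff.2 y0
  have k1 := key _ (un_norm y0) fun v hv w hw e => by
    rw [← sub_eq_zero, ← Complex.sub_re, ← mul_sub, y1, div_eq_zero_iff, or_iff_left y3] at e
    by_cases q : (v - w).im = 0
    · exact sub_eq_zero.1 (Complex.ext (by rw [q] at e; simpa using e) q)
    · exact absurd (mem_image.2 ⟨(v, w), mem_product.2 ⟨hv, hw⟩, by
        rw [div_eq_iff q]; linarith⟩) hs'.1
  have k2 := key (un (1 + s * Complex.I) * Complex.I) (by simp [un_norm y0]) fun v hv w hw e => by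
    rw [← sub_eq_zero, ← Complex.sub_re, ← mul_sub, y2, div_eq_zero_iff, or_iff_left y3] at e
    by_cases q : (v - w).re = 0
    · exact sub_eq_zero.1 (Complex.ext q (by rw [q] at e; rw [Complex.zero_im]; linarith))
    · exact absurd (mem_image.2 ⟨(v, w), mem_product.2 ⟨hv, hw⟩, by
        rw [div_eq_iff q]; linarith⟩) hs'.2
  refine le_trans (card_le_card fun v hv => ?_) ((card_union_le _ _).trans (add_le_add k1 k2))
  obtain ⟨w, hw⟩ := card_pos.1 (lt_of_lt_of_le (by norm_num) (h3 v hv))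
  obtain ⟨h1, h2⟩ := mem_filter.1 hw
  have h4 : ‖un (1 + s * Complex.I) * un (w - v)‖ = 1 := by
    rw [norm_mul, un_norm y0, un_norm fun h => hi v (by rwa [sub_eq_zero.1 h] at h2), one_mul]
  have h5 := Complex.sq_norm (un (1 + s * Complex.I) * un (w - v))
  rw [h4, Complex.normSq_apply] at h5
  by_cases q : |(un (1 + s * Complex.I) * un (w - v)).im| ≤ 3 / 4
  · exact mem_union_left _ (mem_filter.2 ⟨hv, w, h1, h2, q⟩)
  · refine mem_union_right _ (mem_filter.2 ⟨hv, w, h1, h2, ?_⟩)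
    rw [mul_right_comm, Complex.mul_I_im]
    have := sq_abs (un (1 + s * Complex.I) * un (w - v)).im
    have := sq_abs (un (1 + s * Complex.I) * un (w - v)).re
    nlinarith [abs_nonneg (un (1 + s * Complex.I) * un (w - v)).re]

lemma un_eq (z : ℂ) : un z = ‖z‖⁻¹ • z := by
  unfold un; rw [Complex.real_smul, div_eq_inv_mul]; push_cast; rfl

lemma un_le (z : ℂ) : ‖un z‖ ≤ 1 := by
  by_cases h : z = 0
  · simp [h, un]
  · exact (un_norm h).le

lemma in_self (z : ℂ) : inner ℝ z (un z) = ‖z‖ := by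
  rw [un_eq, real_inner_smul_right, real_inner_self_eq_norm_mul_norm]
  by_cases h : ‖z‖ = 0
  · simp [h]
  · field_simp

lemma in_le (a b : ℂ) : inner ℝ a (un b) ≤ ‖a‖ :=
  (real_inner_le_norm _ _).trans (mul_le_of_le_one_right (norm_nonneg _) (un_le b))

theorem deg_le (V : Finset ℂ) (R : ℂ → ℂ → Prop) (hs : ∀ a b, R a b → R b a) (hi : ∀ a, ¬ R a a)
    {p : ℂ} (hp : p ∈ V) : ((V.filter (R p)).card : ℝ) ≤
      2 * ∑ v ∈ V, ‖∑ w ∈ V.filter (R v), un (w - v)‖ := by
  have e1 : ∑ v ∈ V, ∑ w ∈ V.filter (R v), inner ℝ (un (w - v)) (un (v - p)) =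
      ∑ v ∈ V, ∑ w ∈ V.filter (R v), inner ℝ (un (v - w)) (un (w - p)) := by
    simp only [sum_filter]
    rw [sum_comm]
    refine sum_congr rfl fun v _ => sum_congr rfl fun w _ => ?_
    rw [if_congr (⟨hs w v, hs v w⟩ : R w v ↔ R v w) rfl rfl]
  have e2 : -∑ v ∈ V, ‖∑ w ∈ V.filter (R v), un (w - v)‖ ≤
      ∑ v ∈ V, ∑ w ∈ V.filter (R v), inner ℝ (un (w - v)) (un (v - p)) := by
    rw [← sum_neg_distrib]
    refine sum_le_sum fun v _ => ?_
    rw [← sum_inner, neg_le, ← inner_neg_left, ← norm_neg]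
    exact in_le _ _
  have e3 : ∀ v w : ℂ, inner ℝ (un (w - v)) (un (v - p)) + inner ℝ (un (v - w)) (un (w - p)) ≤ 0 := by
    intro v w
    rw [un_eq (w - v), un_eq (v - w), real_inner_smul_left, real_inner_smul_left, norm_sub_rev v w,
      ← mul_add]
    refine mul_nonpos_of_nonneg_of_nonpos (by positivity) ?_
    rw [show w - v = (w - p) - (v - p) by ring, show v - w = (v - p) - (w - p) by ring,
      inner_sub_left (w - p), inner_sub_left (v - p), in_self, in_self]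
    linarith [in_le (w - p) (v - p), in_le (v - p) (w - p)]
  have e4 := single_le_sum (s := V) (f := fun v => ∑ w ∈ V.filter (R v),
    -(inner ℝ (un (w - v)) (un (v - p)) + inner ℝ (un (v - w)) (un (w - p))))
    (fun v _ => sum_nonneg fun w _ => neg_nonneg.2 (e3 v w)) hp
  have e5 : ∑ w ∈ V.filter (R p), -(inner ℝ (un (w - p)) (un (p - p)) +
      inner ℝ (un (p - w)) (un (w - p))) = (V.filter (R p)).card := by
    rw [← mul_one ((V.filter (R p)).card : ℝ), ← nsmul_eq_mul, ← sum_const]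
    refine sum_congr rfl fun w hw => ?_
    rw [sub_self, ← neg_sub w p, un_neg, inner_neg_left, real_inner_self_eq_norm_mul_norm,
      un_norm fun h => hi p (by have := (mem_filter.1 hw).2; rwa [sub_eq_zero.1 h] at this)]
    simp [un]
  beta_reduce at e4
  rw [e5] at e4
  simp only [sum_neg_distrib, sum_add_distrib] at e4
  linarith

lemma dir_inj {v w w' : ℂ} (h1 : w ≠ v) (h2 : w' ≠ v) (e : un (w - v) = un (w' - v)) :
    w ∈ segment ℝ v w' ∨ w' ∈ segment ℝ v w := by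
  have key : ∀ x : ℂ, x ≠ v → ∀ s : ℝ, ‖x - v‖ ≤ s → x ∈ segment ℝ v (v + s * un (x - v)) := by
    intro x hx s hs
    have p1 := norm_pos_iff.2 (sub_ne_zero.2 hx)
    have p2 : (s : ℂ) ≠ 0 := by exact_mod_cast (p1.trans_le hs).ne'
    have p3 : ((‖x - v‖ : ℝ) : ℂ) ≠ 0 := by exact_mod_cast p1.ne'
    have := par_seg (v := v) (b := v + s * un (x - v)) (s := ‖x - v‖ / s)
      (div_nonneg p1.le (p1.le.trans hs)) ((div_le_one (p1.trans_le hs)).2 hs)
    convert this using 1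
    unfold un
    push_cast
    field_simp
    ring
  have a1 := key w h1 _ (le_max_left _ ‖w' - v‖)
  have a2 := key w' h2 _ (le_max_right ‖w - v‖ _)
  rw [← e] at a2
  exact seg_total a1 a2

end Pool.Agent.H.MP_b48dd4_gt
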